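import Pool.Agent.H10.TG.RFC
import Pool.Agent.H12.TG.ASL
import Pool.Agent.H13.TG.GNK
import Pool.Agent.H14.TG.AI1
import Pool.Agent.H14.TG.CCF
import Pool.Agent.H14.TG.SMC
import Pool.Agent.H17.TG.DIV
import Pool.Agent.H17.TG.SHF
import Pool.Agent.H19.TG.DTI
import Pool.Agent.H19.TG.FCP
import Pool.Agent.H19.TG.FNC
import Pool.Agent.H20.TG.RPL
import Pool.Agent.H20.TG.UNI
import Pool.Agent.H23.TG.CMB
import Pool.Agent.H23.TG.REB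
import Pool.Agent.H23.TG.UNL
import Pool.Agent.H23.TG.ZFC
import Pool.Agent.H25.TG.KAP
import Pool.Agent.H25.TG.NSG
import Pool.Agent.H25.TG.ZZR
import Pool.Agent.H3.TG.GIS
import Pool.Agent.H3.TG.KLO
import Pool.Agent.H3.TG.LZC
import Pool.Agent.H3.TG.LZT
import Pool.Agent.H32.TG.DVE
import Pool.Agent.H32.TG.IND
import Pool.Agent.H32.TG.TR0
import Pool.Agent.H33.TG.CPH
import Pool.Agent.H33.TG.MNA
import Pool.Agent.H33.TG.MNR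
import Pool.Agent.H35.TG.TR1
import Pool.Agent.H35.TG.ZHQ
import Pool.Agent.H4.TG.DVS
import Pool.Agent.H4.TG.SLH
import Pool.Agent.H4.TG.SMD
import Pool.Agent.H4.TG.ZLF
import Pool.Agent.H40.TG.TWB
import Pool.Agent.H45.TG.A
import Pool.Agent.H45.TG.B
import Pool.Agent.H49.TGA.CKF
import Pool.Agent.H5.TG.ZSG
import Pool.Agent.H53.TG.CGR
import Pool.Agent.H53.TG.CN1
import Pool.Agent.H53.TG.CNV
import Pool.Agent.H53.TG.COC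
import Pool.Agent.H53.TG.DUA
import Pool.Agent.H53.TG.GBR
import Pool.Agent.H53.TG.HAM
import Pool.Agent.H56.TG.CZF
import Pool.Agent.H56.TG.FAX
import Pool.Agent.H56.TG.IMS
import Pool.Agent.H56.TG.SPE
import Pool.Agent.H63.TG.PPC
import Pool.Agent.H65.TG.CKP
import Pool.Agent.H65.TG.KNG
import Pool.Agent.H65.TG.PHR
import Pool.Agent.H67.TG.AI3
import Pool.Agent.H67.TG.TWA
import Pool.Agent.H7.TG.GAD
import Pool.Agent.H7.TG.GAF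
import Pool.Agent.H70.TG.PSK
import Pool.Agent.H70.TG.PSX
import Pool.Agent.H72.TG.EXT
import Pool.Agent.H74.TG.MNM
import Pool.Agent.H79.TG.CFC
import Pool.Agent.H82.TG.VEX
import Pool.Agent.H88.TG.CSP
import Pool.Agent.H88.TG.DVR
import Pool.Agent.H88.TG.HMG
import Pool.Agent.H88.TG.NEG
import Pool.Agent.H88.TG.REA
import Pool.Agent.H89.TG.DV0
import Pool.Agent.H89.TG.PSG
import Pool.Agent.H94.TG.PRX
import Pool.Agent.H15.TG.Fin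
import Pool.Agent.H2.ST.All

/-!
Symplectic torus actions commuting with a unipotent one-parameter group (MP_51eb24_ag): all rows.
-/

set_option autoImplicit false

namespace Pool.Agent.H15.TG.All

open Pool.Agent.H2.ST Pool.Agent.H15.TG

theorem a_AI1 : T_AI1 := Pool.Agent.H14.TG.pf_AI1

theorem a_AI2 : T_AI2 := Pool.Agent.H14.TG.pf_AI2

theorem a_AI3 : T_AI3 := Pool.Agent.H67.TG.pf_AI3

theorem a_EXT : T_EXT := Pool.Agent.H72.TG.pf_EXT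

theorem a_PRX : T_PRX := Pool.Agent.H94.TG.pf_PRX

theorem a_UNL : T_UNL := Pool.Agent.H23.TG.pf_UNL

theorem a_UNI : T_UNI := Pool.Agent.H20.TG.pf_UNI a_UNL

theorem a_CFC : T_CFC := Pool.Agent.H79.TG.pf_CFC Pool.Agent.H2.ST.All.a_LFC

theorem a_CGR : T_CGR := Pool.Agent.H53.TG.pf_CGR

theorem a_COC : T_COC := Pool.Agent.H53.TG.pf_COC

theorem a_TR1 : T_TR1 := Pool.Agent.H35.TG.pf_TR1 a_AI1

theorem a_TR0 : T_TR0 := Pool.Agent.H32.TG.pf_TR0 a_AI3 a_TR1 a_COC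

theorem a_IND : T_IND := Pool.Agent.H32.TG.pf_IND a_AI1 a_COC

theorem a_DV0 : T_DV0 := Pool.Agent.H89.TG.pf_DV0 a_TR0 a_IND

theorem a_DVE : T_DVE := Pool.Agent.H32.TG.pf_DVE a_DV0 a_CFC a_COC Pool.Agent.H2.ST.All.a_FAC

theorem a_DVR : T_DVR := Pool.Agent.H88.TG.pf_DVR a_COC

theorem a_SLH : T_SLH := Pool.Agent.H4.TG.pf_SLH a_DVE a_DVR a_CGR Pool.Agent.H2.ST.All.a_MSL

theorem a_RPL : T_RPL := Pool.Agent.H20.TG.pf_RPL a_UNI a_AI1 a_TR0 a_COC a_CFC a_CGR Pool.Agent.H2.ST.All.a_FAC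

theorem a_CZF : T_CZF := Pool.Agent.H56.TG.pf_CZF a_SLH

theorem a_SPE : T_SPE := Pool.Agent.H56.TG.pf_SPE a_PRX a_CZF a_IND a_COC

theorem a_FAX : T_FAX := Pool.Agent.H56.TG.pf_FAX a_SPE a_CFC Pool.Agent.H2.ST.All.a_FAC

theorem a_CSP : T_CSP := Pool.Agent.H88.TG.pf_CSP a_CGR

theorem a_LZC : T_LZC := Pool.Agent.H3.TG.pf_LZC a_FAX a_COC a_DVR a_CFC Pool.Agent.H2.ST.All.a_FAC

theorem a_LZT : T_LZT := Pool.Agent.H3.TG.pf_LZT a_FAX a_CFC Pool.Agent.H2.ST.All.a_FAC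

theorem a_TWA : T_TWA := Pool.Agent.H67.TG.pf_TWA a_LZC a_LZT a_FAX a_CFC a_COC

theorem a_TWB : T_TWB := Pool.Agent.H40.TG.pf_TWB a_LZC a_FAX a_CFC a_COC a_DVR Pool.Agent.H2.ST.All.a_FAC

theorem a_NSG : T_NSG := Pool.Agent.H25.TG.pf_NSG a_EXT a_CGR a_CFC Pool.Agent.H2.ST.All.a_FAC

theorem a_ZSG : T_ZSG := Pool.Agent.H5.TG.pf_ZSG

theorem a_KAP : T_KAP := Pool.Agent.H25.TG.pf_KAP a_NSG

theorem a_GIS : T_GIS := Pool.Agent.H3.TG.pf_GIS a_COC a_CFC Pool.Agent.H2.ST.All.a_FAC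

theorem a_IMS : T_IMS := Pool.Agent.H56.TG.pf_IMS a_CZF a_IND a_DVR

theorem a_DVS : T_DVS := Pool.Agent.H4.TG.pf_DVS a_AI1 a_AI2 a_AI3 a_KAP a_GIS a_IMS a_ZSG

theorem a_SON : T_SON := Pool.Agent.H45.TG.pf_SON a_SPE a_CSP a_TWA a_TWB a_DVE a_DVS

theorem a_MNA : T_MNA := Pool.Agent.H33.TG.pf_MNA a_SON a_CFC a_COC Pool.Agent.H2.ST.All.a_FAC a_FAX

theorem a_MNR : T_MNR := Pool.Agent.H33.TG.pf_MNR a_COC

theorem a_PPC : T_PPC := Pool.Agent.H63.TG.pf_PPC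

theorem a_CPH : T_CPH := Pool.Agent.H33.TG.pf_CPH a_AI1 a_PPC a_CZF a_CGR a_IND a_COC

theorem a_PNL : T_PNL := Pool.Agent.H45.TG.pf_PNL a_EXT a_PPC a_CPH Pool.Agent.H2.ST.All.a_NIL

theorem a_PCN : T_PCN := Pool.Agent.H45.TG.pf_PCN a_CPH a_PPC

theorem a_PFC : T_PFC := Pool.Agent.H45.TG.pf_PFC a_PNL a_PCN a_PPC Pool.Agent.H2.ST.All.a_LFC

theorem a_DUA : T_DUA := Pool.Agent.H53.TG.pf_DUA

theorem a_GBR : T_GBR := Pool.Agent.H53.TG.pf_GBR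

theorem a_FCP : T_FCP := Pool.Agent.H19.TG.pf_FCP a_SON a_CZF a_IND a_CFC Pool.Agent.H2.ST.All.a_FAC

theorem a_CKP : T_CKP := Pool.Agent.H65.TG.pf_CKP a_AI1 a_AI2 a_AI3 a_PPC

theorem a_CKF : T_CKF := Pool.Agent.H49.TGA.pf_CKF a_AI1 a_AI2 a_AI3 a_PPC a_FCP

theorem a_NEG : T_NEG := Pool.Agent.H88.TG.pf_NEG a_CKP a_PPC

theorem a_PHR : T_PHR := Pool.Agent.H65.TG.pf_PHR

theorem a_VEX : T_VEX := Pool.Agent.H82.TG.pf_VEX a_PPC a_PNL a_PCN a_PFC a_DUA a_GBR a_PHR a_CGR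

theorem a_RFC : T_RFC := Pool.Agent.H10.TGA.pf_RFC a_PPC a_DUA a_GBR a_PHR a_FCP a_CKF a_CFC a_COC

theorem a_DIV : T_DIV := Pool.Agent.H17.TG.pf_DIV a_PPC a_PFC a_PHR Pool.Agent.H2.ST.All.a_FAC

theorem a_HKP : T_HKP := Pool.Agent.H45.TG.pf_HKP

theorem a_SHF : T_SHF := Pool.Agent.H17.TG.pf_SHF a_PPC a_CPH a_DUA a_GBR a_PHR

theorem a_CMB : T_CMB := Pool.Agent.H23.TG.pf_CMB

theorem a_MNM : T_MNM := Pool.Agent.H74.TG.pf_MNM a_VEX a_RFC a_DIV a_HKP a_SHF a_CMB a_NEG a_PHR a_PFC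

theorem a_ASL : T_ASL := Pool.Agent.H12.TG.pf_ASL a_CKP a_DUA a_GBR a_PPC

theorem a_GNK : T_GNK := Pool.Agent.H13.TG.pf_GNK a_PNL a_PCN a_PPC Pool.Agent.H2.ST.All.a_MSL

theorem a_ZLF : T_ZLF := Pool.Agent.H4.TG.pf_ZLF Pool.Agent.H2.ST.All.a_GEN Pool.Agent.H2.ST.All.a_STB

theorem a_ZHQ : T_ZHQ := Pool.Agent.H35.TG.pf_ZHQ a_ZLF

theorem a_ZFC : T_ZFC := Pool.Agent.H23.TG.pf_ZFC Pool.Agent.H2.ST.All.a_FAC

theorem a_ZZR : T_ZZR := Pool.Agent.H25.TG.pf_ZZR a_ZLF a_ZHQ a_ZFC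

theorem a_KNG : T_KNG := Pool.Agent.H65.TG.pf_KNG Pool.Agent.H2.ST.All.a_KRL

theorem a_KLO : T_KLO := Pool.Agent.H3.TG.pf_KLO a_KNG Pool.Agent.H2.ST.All.a_KRL

theorem a_PSE : T_PSE := Pool.Agent.H45.TG.pf_PSE Pool.Agent.H2.ST.All.a_PAR Pool.Agent.H2.ST.All.a_COM Pool.Agent.H2.ST.All.a_KRL

theorem a_PSK : T_PSK := Pool.Agent.H70.TG.pf_PSK Pool.Agent.H2.ST.All.a_MSL Pool.Agent.H2.ST.All.a_TRM Pool.Agent.H2.ST.All.a_NIL Pool.Agent.H2.ST.All.a_LFC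

theorem a_PSG : T_PSG := Pool.Agent.H89.TG.pf_PSG a_PSK

theorem a_PSX : T_PSX := Pool.Agent.H70.TG.PSXr.pf_PSX a_PSK a_PSG

theorem a_REA : T_REA := Pool.Agent.H88.TG.pf_REA

theorem a_REB : T_REB := Pool.Agent.H23.TG.pf_REB

theorem a_DTI : T_DTI := Pool.Agent.H19.TG.pf_DTI a_PSK a_PSG a_PSX a_KNG a_KLO a_ZZR Pool.Agent.H2.ST.All.a_COA Pool.Agent.H2.ST.All.a_EUL

theorem a_FIK : T_FIK := Pool.Agent.H45.TG.pf_FIK Pool.Agent.H2.ST.All.a_LDV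

theorem a_HMG : T_HMG := Pool.Agent.H88.TG.pf_HMG a_PSG

theorem a_FNC : T_FNC := Pool.Agent.H19.TG.pf_FNC a_PSK

theorem a_GAD : T_GAD := Pool.Agent.H7.TG.pf_GAD

theorem a_HAM : T_HAM := Pool.Agent.H53.TG.pf_HAM Pool.Agent.H2.ST.All.a_POI

theorem a_GAF : T_GAF := Pool.Agent.H7.TG.pf_GAF a_GAD a_HAM Pool.Agent.H2.ST.All.a_GRD

theorem a_CN1 : T_CN1 := Pool.Agent.H53.TG.pf_CN1

theorem a_CNV : T_CNV := Pool.Agent.H53.TG.pf_CNV a_CN1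

theorem a_CCF : T_CCF := Pool.Agent.H14.TG.pf_CCF

theorem a_SMC : T_SMC := Pool.Agent.H14.TG.pf_SMC Pool.Agent.H2.ST.All.a_TOP

theorem a_SMD : T_SMD := Pool.Agent.H4.TG.pf_SMD Pool.Agent.H2.ST.All.a_TOP

end Pool.Agent.H15.TG.All
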