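import Pool.Agent.H15.TG.Targets

/-!
Symplectic torus actions commuting with a unipotent one-parameter group (MP_51eb24_ag):
assembly of the rows.
-/

set_option autoImplicit false

namespace Pool.Agent.H15.TG

open MvPolynomial Pool.Agent.H2.ST

/-- the main theorem for `K` -/
theorem main0 (hRPL : T_RPL) (hMNA : T_MNA) (hMNR : T_MNR) (hPPC : T_PPC) (hMNM : T_MNM)
    (hASL : T_ASL) (hGNK : T_GNK) (k : Type) [Field k] [IsAlgClosed k] [CharZero k] (m d : ℕ)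
    (W : (Fin d → ℤ) → Submodule k (Pol k m)) (K : Subalgebra k (Pol k m))
    (H : Fin d → Pol k m) (f : Pol k m) (h : Fd W K H f) :
    ∃ (z : Fin (d + 1) ⊕ Fin (d + 1) → Pol k m) (ψ : Fin (d + 1) → Fin d → ℤ), Coo W K z ψ := by
  obtain ⟨f', h1⟩ := hRPL k m d W K H f h
  obtain ⟨n, π, ψ, a, c0, hn, h2⟩ := hMNA k m d W K H f' h1
  obtain rfl := hMNR k m d W K H f' h1 n π ψ a c0 hn h2
  have h3 : Mn W K H f' π ψ a c0 := { toGd := h1, toMnP := h2 }
  obtain ⟨j0, r, hr1, hr2, hr3, hr4⟩ := hMNM k m d W K H f' π ψ a c0 h3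
  obtain ⟨R, h4, h5, h6⟩ := hASL k m d W K H f' π ψ a c0 h3 j0 r hr1 hr2 hr3 hr4
  refine ⟨Sum.elim π R, ψ, ?_, ?_, ?_, ?_, ?_, ?_⟩
  · intro i
    exact ⟨(mem_Cf.1 (h2.hp i)).1, h2.wp i⟩
  · intro i
    exact h4 i
  · intro i j
    exact h5 i j
  · intro i j
    exact hPPC k m d W K H f' π ψ a c0 h3 i j
  · intro i j
    exact h6 i j
  · exact hGNK k m d W K H f' π ψ a c0 h3 R (fun i => (h4 i).1) h5

end Pool.Agent.H15.TG
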