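import Pool.Agent.H15.TG.Asm
import Pool.Agent.H2.ST.Asm

/-!
Symplectic torus actions commuting with a unipotent one-parameter group (MP_51eb24_ag):
assembly for torus actions.
-/

set_option autoImplicit false

namespace Pool.Agent.H15.TG

open MvPolynomial Pool.Agent.H2.ST

set_option linter.unusedSectionVars false

section

variable {k : Type} [Field k] [IsAlgClosed k] [CharZero k]

/-- brackets with a transported Hamiltonian -/
theorem iter_conj {m : ℕ} {τ : Pol k m ≃ₐ[k] Pol k m} (hτ : Symp τ) (f g : Pol k m) (n : ℕ) :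
    (br (τ f))^[n] (τ g) = τ ((br f)^[n] g) := by
  induction n generalizing g with
  | zero => rfl
  | succ n ih => rw [Function.iterate_succ_apply, Function.iterate_succ_apply, ← hτ, ih]

theorem iter_sub_C {m : ℕ} (f g : Pol k m) (c : k) (n : ℕ) :
    (br (f - C c))^[n] g = (br f)^[n] g := by
  have h : br (f - C c) = br f := by
    funext x
    rw [sub_br, C_br, sub_zero]
  rw [h]

/-- the case where the fixed point has a zero weight or not, with an invariant Hamiltonian -/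
theorem asm_fix (hRPL : T_RPL) (hMNA : T_MNA) (hMNR : T_MNR) (hPPC : T_PPC) (hMNM : T_MNM)
    (hASL : T_ASL) (hGNK : T_GNK) (hREA : T_REA) (hREB : T_REB) (hPSE : T_PSE) (hDTI : T_DTI)
    (hFIK : T_FIK) (hHMG : T_HMG) (hFNC : T_FNC) (hSPN : T_SPN) (hSPL : T_SPL) (hFNB : T_FNB)
    (hFIN : T_FIN) (n : ℕ)
    (ρ : (Fin n → kˣ) →* (Pol k (n + 1) ≃ₐ[k] Pol k (n + 1)))
    (y : Fin (n + 1) ⊕ Fin (n + 1) → Pol k (n + 1)) (w : Fin (n + 1) → Fin n → ℤ)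
    (hP : PGr (Wt ρ)) (hy : Ada (Wt ρ) y w) (hk : {t | ρ t = 1}.Finite) (f : Pol k (n + 1))
    (hf0 : f ∈ Wt ρ 0) (hfc : constantCoeff f = 0) (hfn : f ≠ 0)
    (hfl : ∀ g : Pol k (n + 1), ∃ N : ℕ, (br f)^[N] g = 0) : Dia ρ := by
  classical
  have h8 := hSPN k (n + 1) n ρ y w hP hy hk
  obtain ⟨c, hc0, hc1, hc2, hc3⟩ := hREA n w h8
  obtain ⟨d, hd⟩ : ∃ d, d + 1 = Nat.card {i // c i ≠ 0} := by
    obtain ⟨i, hi⟩ : ∃ i, c i ≠ 0 := by
      by_contra hcon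
      push Not at hcon
      exact hc0 (funext hcon)
    have : 0 < Nat.card {i // c i ≠ 0} := by
      rw [Nat.card_eq_fintype_card]
      exact Fintype.card_pos_iff.2 ⟨⟨i, hi⟩⟩
    exact ⟨Nat.card {i // c i ≠ 0} - 1, by omega⟩
  rcases Nat.eq_zero_or_pos d with h0 | hpos
  · subst h0
    -- exactly one nonzero coefficient
    have hone : ∃ i0, c i0 ≠ 0 ∧ ∀ i, i ≠ i0 → c i = 0 := by
      rw [Nat.card_eq_fintype_card] at hd
      obtain ⟨⟨i0, h1⟩, h2⟩ := Fintype.card_eq_one_iff.1 hd.symm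
      refine ⟨i0, h1, fun i hi => ?_⟩
      by_contra hcon
      exact hi (congrArg Subtype.val (h2 ⟨i, hcon⟩))
    obtain ⟨i0, hi0, hi1⟩ := hone
    have hw0 : w i0 = 0 := by
      rw [Finset.sum_eq_single i0 (fun i _ hi => by rw [hi1 i hi, zero_smul])
        (fun h => absurd (Finset.mem_univ _) h)] at hc1
      rcases smul_eq_zero.1 hc1 with h | h
      · exact absurd h hi0
      · exact h
    have hwn : ∀ i, i ≠ i0 → w i ≠ 0 := by
      intro i hi hw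
      obtain ⟨π, hπ, -⟩ := hc3 i (hi1 i hi)
      rw [hw, map_zero] at hπ
      exact lt_irrefl _ hπ
    obtain ⟨π, u, v, cc, h11⟩ := hSPL k (n + 1) _ (Wt ρ) y w hP hy (fun i hi => by
      refine hc3 i (hi1 i ?_)
      rintro rfl
      exact hi hw0)
    obtain ⟨z, z1, z2, z3, z4, z5, z6⟩ := hFNB k (n + 1) n (Wt ρ) w π u v cc i0 h11 rfl hw0 hwn
    obtain ⟨φ, hφ, h12⟩ := hFIN k (n + 1) n ρ z w z1 z2 z3 z4 z5 z6
    exact ⟨φ, hφ, w, h12⟩
  · obtain ⟨ϖ, u, v, cc, hPs⟩ := hPSE k (n + 1) _ (Wt ρ) y w (fun i => c i = 0) hP hy hc3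
    obtain ⟨Θ, hΘ1, hΘ2, hΘ3, hΘ4⟩ := hREB k n w c h8 hc0 hc1 hc2 d hd
    have hcard : d + 1 + Nat.card {i // c i = 0} = n + 1 := by
      rw [hd, Nat.card_eq_fintype_card, Nat.card_eq_fintype_card]
      have h1 := Fintype.card_subtype_compl (fun i => c i = 0)
      have h2 : Fintype.card {i // c i = 0} ≤ Fintype.card (Fin (n + 1)) :=
        Fintype.card_subtype_le _
      rw [Fintype.card_fin] at h1 h2
      have h3 : Fintype.card {i // c i ≠ 0} = Fintype.card {i // ¬ c i = 0} := rfl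
      omega
    obtain ⟨H, hD⟩ := hDTI k (n + 1) d _ (Wt ρ) y w (fun i => c i = 0) ϖ u v cc Θ c hPs hy hpos
      hcard hΘ1 hΘ2 (fun i hi => hi) hc1
    have hFd : Fd (co (Wt ρ) Θ) (KS (fun i => c i = 0) u v) H f :=
      { toDat := hD
        fK := hFIK k (n + 1) _ (Wt ρ) w _ ϖ u v cc hPs f hf0 hfl
        f0 := by
          have := le_co (Wt ρ) Θ 0 hf0
          rwa [map_zero] at this
        fc0 := hfc
        fn := hfn
        fl := fun g _ => hfl g }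
    obtain ⟨z, ψ, hz1, hz2, hz3, hz4, hz5, hz6⟩ := main0 hRPL hMNA hMNR hPPC hMNM hASL hGNK k
      (n + 1) d _ _ H f hFd
    have hz7 : ∀ s, z s ∈ KS (fun i => c i = 0) u v := by
      rintro (i | i)
      · exact (hz1 i).1
      · exact (hz2 i).1
    have hz8 : ∀ s, ∃ χ, z s ∈ Wt ρ χ := by
      rintro (i | i)
      · exact hHMG k (n + 1) d _ (Wt ρ) w _ ϖ u v cc Θ hPs hΘ3 _ _ (hz1 i).1 (hz1 i).2
      · exact hHMG k (n + 1) d _ (Wt ρ) w _ ϖ u v cc Θ hPs hΘ3 _ _ (hz2 i).1 (hz2 i).2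
    obtain ⟨Z, ω, h1, h2, h3, h4, h5, h6⟩ := hFNC k (n + 1) d _ (Wt ρ) w _ ϖ u v cc z hPs hcard
      hz7 hz8 hz3 hz4 hz5 hz6
    obtain ⟨φ, hφ, h12⟩ := hFIN k (n + 1) n ρ Z ω h1 h2 h3 h4 h5 h6
    exact ⟨φ, hφ, ω, h12⟩

/-- a commuting unipotent one-parameter group makes the action linearizable -/
theorem asm_lin (hRPL : T_RPL) (hMNA : T_MNA) (hMNR : T_MNR) (hPPC : T_PPC) (hMNM : T_MNM)
    (hASL : T_ASL) (hGNK : T_GNK) (hREA : T_REA) (hREB : T_REB) (hPSE : T_PSE) (hDTI : T_DTI)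
    (hFIK : T_FIK) (hHMG : T_HMG) (hFNC : T_FNC) (hSPN : T_SPN) (hSPL : T_SPL) (hFNB : T_FNB)
    (hFIN : T_FIN) (hGAF : T_GAF) (hGRD : T_GRD) (hFIX : T_FIX) (hDAR : T_DAR) (hTRA : T_TRA)
    (hCJG : T_CJG) (m n : ℕ) (hm : n + 1 = m)
    (ρ : (Fin n → kˣ) →* (Pol k m ≃ₐ[k] Pol k m)) (hA : AlgAct ρ) (hs : ∀ t, Symp (ρ t))
    (hk : {t | ρ t = 1}.Finite) (σ : Multiplicative k →* (Pol k m ≃ₐ[k] Pol k m))
    (hσA : AlgGa σ) (hσs : ∀ s, Symp (σ s)) (hσ1 : ∃ s, σ s ≠ 1)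
    (hσc : ∀ s t, σ s * ρ t = ρ t * σ s) : Dia ρ := by
  subst hm
  have hG : Gr (Wt ρ) := hGRD k _ n ρ hA
  obtain ⟨f, hf0, hfn, hfl⟩ := hGAF k (n + 1) n ρ σ hA hs hσA hσs hσ1 hσc
  obtain ⟨p, hp⟩ := hFIX k _ n ρ hA
  obtain ⟨τ, ρ', y, w, h1, h3, h4, h5, h6, h7⟩ := local_form hDAR hTRA hCJG ρ hG hs p hp
  refine Dia.of_conj h1 h4 ?_
  have hk' : {t | ρ' t = 1}.Finite := by rw [ker_conj h4]; exact hk
  have hτf : τ f ∈ Wt ρ' 0 := by
    rw [h6]
    change τ.symm (τ f) ∈ _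
    rw [AlgEquiv.symm_apply_apply]
    exact hf0
  refine asm_fix hRPL hMNA hMNR hPPC hMNM hASL hGNK hREA hREB hPSE hDTI hFIK hHMG hFNC hSPN hSPL
    hFNB hFIN n ρ' y w h5 h7 hk' (τ f - C (constantCoeff (τ f))) ?_ ?_ ?_ ?_
  · refine Submodule.sub_mem _ hτf ?_
    exact algebraMap_mem_gr h5.toGr _
  · rw [map_sub, constantCoeff_C, sub_self]
  · intro h0
    apply hfn
    refine ⟨constantCoeff (τ f), ?_⟩
    have h9 : τ f = C (constantCoeff (τ f)) := sub_eq_zero.1 h0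
    have h10 : τ f = τ (C (constantCoeff (τ f))) := by
      conv_rhs => rw [← algebraMap_eq, AlgEquiv.commutes]
      exact h9
    exact τ.injective h10
  · intro g
    obtain ⟨N, hN⟩ := hfl (τ.symm g)
    refine ⟨N, ?_⟩
    rw [iter_sub_C]
    have h9 := iter_conj h1 f (τ.symm g) N
    rw [AlgEquiv.apply_symm_apply, hN, map_zero] at h9
    exact h9

end

end Pool.Agent.H15.TG
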