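import Pool.Agent.H15.TG.Targets

/-!
Symplectic torus actions commuting with a unipotent one-parameter group (MP_51eb24_ag):
further targets of the board `tga_modules`.
-/

set_option autoImplicit false

namespace Pool.Agent.H15.TG

open MvPolynomial Pool.Agent.H2.ST

/-- products of commuting elements with locally nilpotent bracket -/
def T_CCF : Prop := ∀ (k : Type) [Field k] [CharZero k] (m r : ℕ) (f : Fin r → Pol k m)
  (n : Fin r → ℕ), (∀ i j, br (f i) (f j) = 0) →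
  (∀ i, ∀ g : Pol k m, ∃ N : ℕ, (br (f i))^[N] g = 0) →
  ∀ g : Pol k m, ∃ N : ℕ, (br (∏ i, f i ^ n i))^[N] g = 0

/-- a commuting family of nonconstant semi-invariants with locally nilpotent brackets, whose
weights satisfy a relation with nonnegative coefficients -/
def Fam {k : Type} [Field k] {m d : ℕ} (W : (Fin d → ℤ) → Submodule k (Pol k m)) (r : ℕ)
    (f : Fin r → Pol k m) (χ : Fin r → Fin d → ℤ) (n : Fin r → ℕ) : Prop :=
  (∀ i, f i ∈ W (χ i)) ∧ (∀ i, ¬ ∃ c : k, f i = C c) ∧ (∀ i j, br (f i) (f j) = 0) ∧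
  (∀ i, ∀ g : Pol k m, ∃ N : ℕ, (br (f i))^[N] g = 0) ∧ (∃ i, n i ≠ 0) ∧
  ∑ i, (n i : ℤ) • χ i = 0

/-- a semi-invariant symplectic coordinate gives such a family in dimension four -/
def T_SMC : Prop := ∀ (k : Type) [Field k] [CharZero k]
  (W : (Fin 1 → ℤ) → Submodule k (Pol k 2)) (θ : Pol k 2 ≃ₐ[k] Pol k 2) (e : Fin 1 → ℤ),
  PGr W → Symp θ → θ (X (Sum.inl 0)) ∈ W e →
  ∃ (r : ℕ) (f : Fin r → Pol k 2) (χ : Fin r → Fin 1 → ℤ) (n : Fin r → ℕ), Fam W r f χ n

end Pool.Agent.H15.TG
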