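import Pool.Agent.H15.TG.Asm2
import Pool.Agent.H15.TG.Targets2

/-!
Symplectic torus actions commuting with a unipotent one-parameter group (MP_51eb24_ag):
assembly, final form.
-/

set_option autoImplicit false

namespace Pool.Agent.H15.TG

open MvPolynomial Pool.Agent.H2.ST

set_option linter.unusedSectionVars false

section

variable {k : Type} [Field k] [IsAlgClosed k] [CharZero k]

/-- weight-zero products are semi-invariants of weight zero -/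
theorem prod_weight {m d : ℕ} {W : (Fin d → ℤ) → Submodule k (Pol k m)} (h : Gr W) (r : ℕ)
    (f : Fin r → Pol k m) (χ : Fin r → Fin d → ℤ) (n : Fin r → ℕ) (hf : ∀ i, f i ∈ W (χ i))
    (hn : ∑ i, (n i : ℤ) • χ i = 0) : ∏ i, f i ^ n i ∈ W 0 := by
  have h1 := prod_mem_gr h Finset.univ (fun i => n i • χ i) (fun i => f i ^ n i)
    (fun i _ => pow_mem_gr h (hf i) (n i))
  have h2 : ∑ i, n i • χ i = 0 := by
    rw [← hn]
    exact Finset.sum_congr rfl fun i _ => by rw [natCast_zsmul]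
  rwa [h2] at h1

theorem prod_nonconst {m r : ℕ} (f : Fin r → Pol k m) (n : Fin r → ℕ)
    (hf : ∀ i, ¬ ∃ c : k, f i = C c) (hn : ∃ i, n i ≠ 0) : ¬ ∃ c : k, ∏ i, f i ^ n i = C c := by
  rintro ⟨c, hc⟩
  have h0 : ∀ i, f i ≠ 0 := by
    intro i hi
    exact hf i ⟨0, by rw [hi, C_0]⟩
  obtain ⟨i, hi⟩ := hn
  have hc0 : c ≠ 0 := by
    rintro rfl
    rw [C_0] at hc
    obtain ⟨j, -, hj⟩ := Finset.prod_eq_zero_iff.1 hc
    exact pow_ne_zero _ (h0 j) hj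
  have h1 : f i ∣ C c := by
    rw [← hc]
    exact (dvd_pow_self _ hi).trans (Finset.dvd_prod_of_mem _ (Finset.mem_univ i))
  have h2 : IsUnit (f i) := isUnit_of_dvd_unit h1 ((isUnit_iff_ne_zero.2 hc0).map C)
  rw [MvPolynomial.isUnit_iff_eq_C_of_isReduced] at h2
  obtain ⟨r', -, hr'⟩ := h2
  exact hf i ⟨r', hr'⟩

/-- an invariant Hamiltonian makes the action linearizable -/
theorem asm_ham (hRPL : T_RPL) (hMNA : T_MNA) (hMNR : T_MNR) (hPPC : T_PPC) (hMNM : T_MNM)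
    (hASL : T_ASL) (hGNK : T_GNK) (hREA : T_REA) (hREB : T_REB) (hPSE : T_PSE) (hDTI : T_DTI)
    (hFIK : T_FIK) (hHMG : T_HMG) (hFNC : T_FNC) (hSPN : T_SPN) (hSPL : T_SPL) (hFNB : T_FNB)
    (hFIN : T_FIN) (hGRD : T_GRD) (hFIX : T_FIX) (hDAR : T_DAR) (hTRA : T_TRA)
    (hCJG : T_CJG) (m n : ℕ) (hm : n + 1 = m)
    (ρ : (Fin n → kˣ) →* (Pol k m ≃ₐ[k] Pol k m)) (hA : AlgAct ρ) (hs : ∀ t, Symp (ρ t))
    (hk : {t | ρ t = 1}.Finite) (f : Pol k m) (hf0 : f ∈ Wt ρ 0) (hfn : ¬ ∃ c : k, f = C c)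
    (hfl : ∀ g : Pol k m, ∃ N : ℕ, (br f)^[N] g = 0) : Dia ρ := by
  subst hm
  have hG : Gr (Wt ρ) := hGRD k _ n ρ hA
  obtain ⟨p, hp⟩ := hFIX k _ n ρ hA
  obtain ⟨τ, ρ', y, w, h1, h3, h4, h5, h6, h7⟩ := local_form hDAR hTRA hCJG ρ hG hs p hp
  refine Dia.of_conj h1 h4 ?_
  have hk' : {t | ρ' t = 1}.Finite := by rw [ker_conj h4]; exact hk
  have hτf : τ f ∈ Wt ρ' 0 := by
    rw [h6]
    change τ.symm (τ f) ∈ _
    rw [AlgEquiv.symm_apply_apply]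
    exact hf0
  refine asm_fix hRPL hMNA hMNR hPPC hMNM hASL hGNK hREA hREB hPSE hDTI hFIK hHMG hFNC hSPN hSPL
    hFNB hFIN n ρ' y w h5 h7 hk' (τ f - C (constantCoeff (τ f))) ?_ ?_ ?_ ?_
  · refine Submodule.sub_mem _ hτf ?_
    exact algebraMap_mem_gr h5.toGr _
  · rw [map_sub, constantCoeff_C, sub_self]
  · intro h0
    apply hfn
    refine ⟨constantCoeff (τ f), ?_⟩
    have h9 : τ f = C (constantCoeff (τ f)) := sub_eq_zero.1 h0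
    have h10 : τ f = τ (C (constantCoeff (τ f))) := by
      conv_rhs => rw [← algebraMap_eq, AlgEquiv.commutes]
      exact h9
    exact τ.injective h10
  · intro g
    obtain ⟨N, hN⟩ := hfl (τ.symm g)
    refine ⟨N, ?_⟩
    rw [iter_sub_C]
    have h9 := iter_conj h1 f (τ.symm g) N
    rw [AlgEquiv.apply_symm_apply, hN, map_zero] at h9
    exact h9

/-- families of commuting semi-invariants -/
theorem fam_ham (hCCF : T_CCF) {m d : ℕ} {W : (Fin d → ℤ) → Submodule k (Pol k m)} (h : Gr W)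
    {r : ℕ} {f : Fin r → Pol k m} {χ : Fin r → Fin d → ℤ} {n : Fin r → ℕ}
    (hF : Fam W r f χ n) : ∃ g : Pol k m, g ∈ W 0 ∧ (¬ ∃ c : k, g = C c) ∧
      ∀ x : Pol k m, ∃ N : ℕ, (br g)^[N] x = 0 := by
  obtain ⟨h1, h2, h3, h4, h5, h6⟩ := hF
  exact ⟨∏ i, f i ^ n i, prod_weight h r f χ n h1 h6, prod_nonconst f n h2 h5,
    hCCF k m r f n h3 h4⟩

theorem symp_inv {m : ℕ} {φ : Pol k m ≃ₐ[k] Pol k m} (h : Symp φ) : Symp φ⁻¹ := by
  intro f g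
  change φ.symm (br f g) = br (φ.symm f) (φ.symm g)
  rw [AlgEquiv.symm_apply_eq, h, AlgEquiv.apply_symm_apply, AlgEquiv.apply_symm_apply]

theorem symp_mul {m : ℕ} {φ ψ : Pol k m ≃ₐ[k] Pol k m} (h1 : Symp φ) (h2 : Symp ψ) :
    Symp (φ * ψ) := by
  intro f g
  change φ (ψ (br f g)) = br (φ (ψ f)) (φ (ψ g))
  rw [h2, h1]

/-- a diagonal action has a semi-invariant symplectic coordinate -/
theorem dia_coord {m d : ℕ} {ρ : (Fin d → kˣ) →* (Pol k m ≃ₐ[k] Pol k m)} (hD : Dia ρ)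
    (i : Fin m) : ∃ (θ : Pol k m ≃ₐ[k] Pol k m) (e : Fin d → ℤ), Symp θ ∧
      θ (X (Sum.inl i)) ∈ Wt ρ e := by
  obtain ⟨φ, hφ, w, hw⟩ := hD
  refine ⟨φ⁻¹, w i, symp_inv hφ, fun t => ?_⟩
  have h1 := (hw t i).1
  change φ (ρ t (φ.symm (X (Sum.inl i)))) = _ at h1
  change ρ t (φ.symm (X (Sum.inl i))) = _ • φ.symm (X (Sum.inl i))
  have h2 := congrArg φ.symm h1
  rw [AlgEquiv.symm_apply_apply] at h2
  rw [h2, map_mul, ← algebraMap_eq, AlgEquiv.commutes, Algebra.smul_def]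

/-- a semi-invariant symplectic coordinate in dimension four -/
theorem asm_coord (hRPL : T_RPL) (hMNA : T_MNA) (hMNR : T_MNR) (hPPC : T_PPC) (hMNM : T_MNM)
    (hASL : T_ASL) (hGNK : T_GNK) (hREA : T_REA) (hREB : T_REB) (hPSE : T_PSE) (hDTI : T_DTI)
    (hFIK : T_FIK) (hHMG : T_HMG) (hFNC : T_FNC) (hSPN : T_SPN) (hSPL : T_SPL) (hFNB : T_FNB)
    (hFIN : T_FIN) (hGRD : T_GRD) (hFIX : T_FIX) (hDAR : T_DAR) (hTRA : T_TRA)
    (hCJG : T_CJG) (hCCF : T_CCF) (hSMC : T_SMC)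
    (ρ : (Fin 1 → kˣ) →* (Pol k 2 ≃ₐ[k] Pol k 2)) (hA : AlgAct ρ) (hs : ∀ t, Symp (ρ t))
    (hk : {t | ρ t = 1}.Finite) (θ : Pol k 2 ≃ₐ[k] Pol k 2) (hθ : Symp θ) (e : Fin 1 → ℤ)
    (he : θ (X (Sum.inl 0)) ∈ Wt ρ e) : Dia ρ := by
  have hG : Gr (Wt ρ) := hGRD k _ 1 ρ hA
  obtain ⟨p, hp⟩ := hFIX k _ 1 ρ hA
  obtain ⟨τ, ρ', y, w, h1, h3, h4, h5, h6, h7⟩ := local_form hDAR hTRA hCJG ρ hG hs p hp
  have h8 : (τ * θ) (X (Sum.inl 0)) ∈ Wt ρ' e := by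
    rw [h6]
    change τ.symm (τ (θ (X (Sum.inl 0)))) ∈ _
    rw [AlgEquiv.symm_apply_apply]
    exact he
  obtain ⟨r, f, χ, n, hF⟩ := hSMC k (Wt ρ') (τ * θ) e h5 (symp_mul h1 hθ) h8
  obtain ⟨g, hg0, hgn, hgl⟩ := fam_ham hCCF h5.toGr hF
  -- back to the original action
  have hg0' : τ.symm g ∈ Wt ρ 0 := (h6 0 g).1 hg0
  refine asm_ham hRPL hMNA hMNR hPPC hMNM hASL hGNK hREA hREB hPSE hDTI hFIK hHMG hFNC hSPN hSPL
    hFNB hFIN hGRD hFIX hDAR hTRA hCJG 2 1 rfl ρ hA hs hk (τ.symm g) hg0' ?_ ?_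
  · rintro ⟨c, hc⟩
    apply hgn
    refine ⟨c, ?_⟩
    have h9 := congrArg τ hc
    rw [AlgEquiv.apply_symm_apply, ← algebraMap_eq, AlgEquiv.commutes] at h9
    exact h9
  · intro x
    obtain ⟨N, hN⟩ := hgl (τ x)
    refine ⟨N, ?_⟩
    have h9 := iter_conj h1 (τ.symm g) x N
    rw [AlgEquiv.apply_symm_apply, hN] at h9
    exact (map_eq_zero_iff _ τ.injective).1 h9.symm

end

end Pool.Agent.H15.TG
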