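import Pool.Agent.H2.ST.Targets

/-!
Symplectic torus actions commuting with a unipotent one-parameter group (MP_51eb24_ag):
definitions of the board `tga_modules`.
-/

set_option autoImplicit false

namespace Pool.Agent.H15.TG

open MvPolynomial Pool.Agent.H2.ST

variable {k : Type} [Field k] {m d : ℕ}

/-- the weight `χ` occurs in `K` -/
def Oc (W : (Fin d → ℤ) → Submodule k (Pol k m)) (K : Subalgebra k (Pol k m))
    (χ : Fin d → ℤ) : Prop := ∃ g ∈ K, g ∈ W χ ∧ g ≠ 0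

/-- the centralizer of `f` in `K` -/
noncomputable def Cf (K : Subalgebra k (Pol k m)) (f : Pol k m) : Subalgebra k (Pol k m) :=
  K ⊓ Cen {f}

theorem mem_Cf {K : Subalgebra k (Pol k m)} {f g : Pol k m} :
    g ∈ Cf K f ↔ g ∈ K ∧ br f g = 0 := by
  unfold Cf
  rw [Algebra.mem_inf, mem_Cen]
  constructor
  · rintro ⟨h1, h2⟩
    refine ⟨h1, ?_⟩
    rw [br_anti, h2 f rfl, neg_zero]
  · rintro ⟨h1, h2⟩
    refine ⟨h1, ?_⟩
    rintro x rfl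
    rw [br_anti, h2, neg_zero]

/-- algebraic independence modulo an ideal -/
def Imod (k : Type) [Field k] {A ι : Type} [CommRing A] [Algebra k A] (J : Ideal A)
    (y : ι → A) : Prop := ∀ P : MvPolynomial ι k, aeval y P ∈ J → P = 0

/-- the basic data: a graded Poisson subalgebra `K` of transcendence degree at most `2 d + 2` on
which the `d`-dimensional torus acts with moment map `H` -/
structure Dat (W : (Fin d → ℤ) → Submodule k (Pol k m)) (K : Subalgebra k (Pol k m))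
    (H : Fin d → Pol k m) : Prop extends PGr W where
  dpos : 0 < d
  fc : ∀ a b : Pol k m, a * b ≠ 0 → a * b ∈ K → a ∈ K ∧ b ∈ K
  bk : ∀ a ∈ K, ∀ b ∈ K, br a b ∈ K
  cp : ∀ a ∈ K, ∃ c : (Fin d → ℤ) →₀ Pol k m, (∀ χ, c χ ∈ W χ ∧ c χ ∈ K) ∧
    (c.sum fun _ x => x) = a
  tr : ∀ (ι : Type) [Fintype ι] (F : ι → Pol k m), (∀ i, F i ∈ K) →
    AlgebraicIndependent k F → Fintype.card ι ≤ 2 * d + 2
  cn : ∀ p ∈ K, (∀ g ∈ K, p ∣ br p g) → ∃ c : k, p = C c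
  hK : ∀ j, H j ∈ K
  h0 : ∀ j, H j ∈ W 0
  hc : ∀ j, constantCoeff (H j) = 0
  eu : ∀ (j : Fin d) (χ : Fin d → ℤ), ∀ g ∈ K, g ∈ W χ → br (H j) g = ((χ j : ℤ) : k) • g
  zz : ∀ (χ : Fin d → ℤ) (p : Pol k m) (Q : MvPolynomial (Fin d) k), χ ≠ 0 → p ≠ 0 → p ∈ K →
    p ∈ W χ → p ∣ aeval H Q → Q = 0
  ng : ∀ χ, Oc W K χ → Oc W K (-χ)
  sp : ∀ l : Fin d → k, (∀ χ, Oc W K χ → ∑ j, l j * ((χ j : ℤ) : k) = 0) → l = 0
  lo : ∀ l : (Fin d → ℤ) → ℤ,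
    (∀ χ χ', Oc W K χ → Oc W K χ' → l (χ + χ') = l χ + l χ') → (∃ χ, Oc W K χ ∧ l χ ≠ 0) →
    ∃ χ χ' : Fin d → ℤ, ∃ y ∈ K, ∃ y' ∈ K, y ∈ W χ ∧ y' ∈ W χ' ∧ l χ < 0 ∧ l χ' < 0 ∧
      ∀ σ : Pol k m, σ ∣ y → σ ∣ y' → constantCoeff σ ≠ 0

/-- with an invariant Hamiltonian whose bracket is locally nilpotent -/
structure Fd (W : (Fin d → ℤ) → Submodule k (Pol k m)) (K : Subalgebra k (Pol k m))
    (H : Fin d → Pol k m) (f : Pol k m) : Prop extends Dat W K H where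
  fK : f ∈ K
  f0 : f ∈ W 0
  fc0 : constantCoeff f = 0
  fn : f ≠ 0
  fl : ∀ g ∈ K, ∃ n : ℕ, (br f)^[n] g = 0

/-- ... and such that `f` generates the invariants central in the centralizer of `f` -/
structure Gd (W : (Fin d → ℤ) → Submodule k (Pol k m)) (K : Subalgebra k (Pol k m))
    (H : Fin d → Pol k m) (f : Pol k m) : Prop extends Fd W K H f where
  ce : ∀ z ∈ K, z ∈ W 0 → (∀ g ∈ Cf K f, br g z = 0) → z ∈ Algebra.adjoin k {f}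

/-- `y j` is the derivative of `x` with respect to `H j` -/
def Dv (W : (Fin d → ℤ) → Submodule k (Pol k m)) (K : Subalgebra k (Pol k m)) (f x : Pol k m)
    (y : Fin d → Pol k m) : Prop :=
  (∀ j, y j ∈ Cf K f ∧ y j ∈ W 0) ∧
    ∀ (χ : Fin d → ℤ) (g : Pol k m), g ∈ Cf K f → g ∈ W χ →
      br g x = -(g * ∑ j, ((χ j : ℤ) : k) • y j)

/-- `x` generates the ideal of the invariants divisible by `π` -/
def Spx (W : (Fin d → ℤ) → Submodule k (Pol k m)) (K : Subalgebra k (Pol k m)) (f π x : Pol k m) :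
    Prop := x ≠ 0 ∧ x ∈ Cf K f ∧ x ∈ W 0 ∧ π ∣ x ∧ ∀ y ∈ Cf K f, y ∈ W 0 → π ∣ y → x ∣ y

/-- two primes `π`, `σ` of opposite weights whose product moves with the moment map -/
structure Tw (W : (Fin d → ℤ) → Submodule k (Pol k m)) (K : Subalgebra k (Pol k m))
    (H : Fin d → Pol k m) (f π σ q : Pol k m) (y : Fin d → Pol k m) (ψ : Fin d → ℤ)
    (l : (Fin d → ℤ) → ℤ) : Prop extends Gd W K H f where
  pp : Prime π
  pσ : Prime σ
  hp : π ∈ Cf K f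
  hσ : σ ∈ Cf K f
  wp : π ∈ W ψ
  wσ : σ ∈ W (-ψ)
  ψ0 : ψ ≠ 0
  sp' : Spx W K f π (π * σ)
  sσ : Spx W K f σ (π * σ)
  dv : Dv W K f (π * σ) y
  y0 : ∃ j, y j ≠ 0
  q0 : q ∈ Cf K f ∧ q ∈ W 0
  qb : br π σ = -q
  qp : ¬ π ∣ q
  qσ : ¬ σ ∣ q
  la : ∀ χ χ', Oc W K χ → Oc W K χ' → l (χ + χ') = l χ + l χ'
  l1 : l ψ = 1
  ll : ∀ χ, Oc W K χ → ∑ j, ((χ j : ℤ) : k) • y j = ((l χ : ℤ) : k) • q
  ln : ∀ (χ : Fin d → ℤ) (g : Pol k m), g ∈ Cf K f → g ∈ W χ → l χ < 0 → σ ∣ g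
  lp : ∀ (χ : Fin d → ℤ) (g : Pol k m), g ∈ Cf K f → g ∈ W χ → 0 < l χ → π ∣ g

/-- monomial structure of the centralizer of `f`, with `n` primes -/
structure MnP (W : (Fin d → ℤ) → Submodule k (Pol k m)) (K : Subalgebra k (Pol k m))
    (f : Pol k m) (n : ℕ) (π : Fin n → Pol k m) (ψ : Fin n → Fin d → ℤ) (a : Fin n → ℕ)
    (c0 : k) : Prop where
  pp : ∀ i, Prime (π i)
  hp : ∀ i, π i ∈ Cf K f
  wp : ∀ i, π i ∈ W (ψ i)
  ψ0 : ∀ i, ψ i ≠ 0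
  ap : ∀ i, 0 < a i
  c1 : c0 ≠ 0
  fe : f = C c0 * ∏ i, π i ^ a i
  na : ∀ i j, i ≠ j → ¬ π i ∣ π j
  pf : ∀ y ∈ Cf K f, y ∈ W 0 → ∀ i, π i ∣ y → f ∣ y
  mo' : ∀ (χ : Fin d → ℤ) (g : Pol k m), g ∈ Cf K f → g ∈ W χ → g ≠ 0 →
    ∃ y ∈ Cf K f, y ∈ W 0 ∧ ∃ e : Fin n → ℕ, g = y * ∏ i, π i ^ e i
  ra : ∑ i, (a i : ℤ) • ψ i = 0
  rl : ∀ e : Fin n → ℤ, ∑ i, e i • ψ i = 0 → ∃ N : ℤ, ∀ i, e i = N * (a i : ℤ)

/-- monomial structure of the centralizer of `f` -/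
structure Mn (W : (Fin d → ℤ) → Submodule k (Pol k m)) (K : Subalgebra k (Pol k m))
    (H : Fin d → Pol k m) (f : Pol k m) (π : Fin (d + 1) → Pol k m)
    (ψ : Fin (d + 1) → Fin d → ℤ) (a : Fin (d + 1) → ℕ) (c0 : k) : Prop
    extends Gd W K H f, MnP W K f (d + 1) π ψ a c0

/-- the subalgebra generated by the `π i` -/
noncomputable abbrev Kp (π : Fin (d + 1) → Pol k m) : Subalgebra k (Pol k m) :=
  Algebra.adjoin k (Set.range π)

/-- the reduced derivation `f` divided by its nonreduced part -/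
noncomputable def phi (π : Fin (d + 1) → Pol k m) (a : Fin (d + 1) → ℕ) (s : Pol k m) :
    Pol k m := ∑ i, C ((a i : ℕ) : k) * (∏ j ∈ Finset.univ.erase i, π j) * br (π i) s

/-- homogeneous elements all of whose brackets with the `π i` are in `k[π]` -/
def Vd (W : (Fin d → ℤ) → Submodule k (Pol k m)) (K : Subalgebra k (Pol k m)) (f : Pol k m)
    (π : Fin (d + 1) → Pol k m) (χ : Fin d → ℤ) (s : Pol k m) : Prop :=
  s ∈ K ∧ s ∈ W χ ∧ (∀ i, br (π i) s ∈ Kp π) ∧ br f s ≠ 0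

/-- the dual elements: coefficients `b` such that `∑ t, b i t * ψ l t = δ_il` for `l ≠ j0` -/
def Du (ψ : Fin (d + 1) → Fin d → ℤ) (a : Fin (d + 1) → ℕ) (k : Type) [Field k]
    (j0 : Fin (d + 1)) (b : Fin (d + 1) → Fin d → k) : Prop :=
  (∀ i l, i ≠ j0 → l ≠ j0 → ∑ t, b i t * ((ψ l t : ℤ) : k) = if i = l then 1 else 0) ∧
    ∀ i, i ≠ j0 → ∑ t, b i t * ((ψ j0 t : ℤ) : k) = -(((a i : ℕ) : k) / ((a j0 : ℕ) : k))

/-- the Hamiltonian with coefficients `b` -/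
noncomputable def Gb (H : Fin d → Pol k m) (b : Fin d → k) : Pol k m := ∑ t, b t • H t

/-- data for the verification of the conditions of `Dat`: elements of `K` with the same linear
parts as the coordinates of nonzero weight -/
structure Kd (W : (Fin d → ℤ) → Submodule k (Pol k m)) (K : Subalgebra k (Pol k m))
    (y : Fin m ⊕ Fin m → Pol k m) (w : Fin m → Fin d → ℤ) (κ : Fin m ⊕ Fin m → Pol k m) : Prop
    extends PGr W where
  ad' : Ada W y w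
  dpos : 0 < d
  kl : ∀ i, w i ≠ 0 → κ (Sum.inl i) ∈ K ∧ κ (Sum.inl i) ∈ W (w i) ∧
    ∀ g, constantCoeff (br (κ (Sum.inl i)) g) = constantCoeff (br (y (Sum.inl i)) g)
  kr : ∀ i, w i ≠ 0 → κ (Sum.inr i) ∈ K ∧ κ (Sum.inr i) ∈ W (-w i) ∧
    ∀ g, constantCoeff (br (κ (Sum.inr i)) g) = constantCoeff (br (y (Sum.inr i)) g)
  re : ∃ c : Fin m → ℤ, (∀ i, w i ≠ 0 → c i ≠ 0) ∧ ∑ i, c i • w i = 0
  sp : ∀ l : Fin d → k, (∀ i, ∑ t, l t * ((w i t : ℤ) : k) = 0) → l = 0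

/-- partial splitting: a pair for every index in `S` -/
structure Ps {Γ : Type} [AddCommGroup Γ] (W : Γ → Submodule k (Pol k m)) (w : Fin m → Γ)
    (S : Fin m → Prop) (ϖ : Fin m → Γ →+ ℤ) (u v : Fin m → Pol k m) (c : Fin m → k) : Prop
    extends PGr W where
  par : ∀ i, S i → Par W (w i) (ϖ i) (u i) (v i) (c i)
  pz : ∀ i, S i → ∀ j, j ≠ i → ϖ i (w j) = 0
  uu : ∀ i j, S i → S j → br (u i) (u j) = 0
  vv : ∀ i j, S i → S j → br (v i) (v j) = 0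
  uv : ∀ i j, S i → S j → i ≠ j → br (u i) (v j) = 0
  wt : ∀ (χ : Γ) (f : Pol k m), f ∈ W χ → f ≠ 0 → ∃ e : Fin m → ℤ, χ = ∑ i, e i • w i

/-- the centralizer of the split pairs -/
noncomputable def KS (S : Fin m → Prop) (u v : Fin m → Pol k m) : Subalgebra k (Pol k m) :=
  Cen {p | ∃ i, S i ∧ (p = u i ∨ p = v i)}

/-- the conclusion for `K`: symplectic homogeneous coordinates -/
def Coo (W : (Fin d → ℤ) → Submodule k (Pol k m)) (K : Subalgebra k (Pol k m))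
    (z : Fin (d + 1) ⊕ Fin (d + 1) → Pol k m) (ψ : Fin (d + 1) → Fin d → ℤ) : Prop :=
  (∀ i, z (Sum.inl i) ∈ K ∧ z (Sum.inl i) ∈ W (ψ i)) ∧
  (∀ i, z (Sum.inr i) ∈ K ∧ z (Sum.inr i) ∈ W (-ψ i)) ∧
  (∀ i j, br (z (Sum.inl i)) (z (Sum.inr j)) = if i = j then 1 else 0) ∧
  (∀ i j, br (z (Sum.inl i)) (z (Sum.inl j)) = 0) ∧
  (∀ i j, br (z (Sum.inr i)) (z (Sum.inr j)) = 0) ∧
  (∀ g ∈ K, g ∈ Algebra.adjoin k (Set.range z))

/-- algebraic action of the additive group -/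
def AlgGa (σ : Multiplicative k →* (Pol k m ≃ₐ[k] Pol k m)) : Prop :=
  ∃ F : Fin m ⊕ Fin m → Polynomial (Pol k m), ∀ (t : k) (s : Fin m ⊕ Fin m),
    σ (Multiplicative.ofAdd t) (X s) = (F s).eval (C t)

end Pool.Agent.H15.TG
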