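import Pool.Agent.H15.TG.Asm3

/-!
Symplectic torus actions commuting with a unipotent one-parameter group (MP_51eb24_ag):
final statement from the closed rows.
-/

set_option autoImplicit false

namespace Pool.Agent.H15.TG

open MvPolynomial Pool.Agent.H2.ST

set_option linter.unusedSectionVars false

section

variable {k : Type} [Field k] [IsAlgClosed k] [CharZero k]

/-- permutations of the pairs of coordinates are symplectic -/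
theorem symp_perm {m : ℕ} (e : Fin m ≃ Fin m) :
    Symp (renameEquiv k (Equiv.sumCongr e e) : Pol k m ≃ₐ[k] Pol k m) := by
  intro f g
  change rename (Equiv.sumCongr e e) (br f g) =
    br (rename (Equiv.sumCongr e e) f) (rename (Equiv.sumCongr e e) g)
  have hinj : Function.Injective (Equiv.sumCongr e e : Fin m ⊕ Fin m → Fin m ⊕ Fin m) :=
    (Equiv.sumCongr e e).injective
  have hl : ∀ (i : Fin m) (p : Pol k m), pderiv (Sum.inl (e i))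
      (rename (Equiv.sumCongr e e) p) = rename (Equiv.sumCongr e e) (pderiv (Sum.inl i) p) :=
    fun i p => pderiv_rename hinj (Sum.inl i) p
  have hr : ∀ (i : Fin m) (p : Pol k m), pderiv (Sum.inr (e i))
      (rename (Equiv.sumCongr e e) p) = rename (Equiv.sumCongr e e) (pderiv (Sum.inr i) p) :=
    fun i p => pderiv_rename hinj (Sum.inr i) p
  unfold br
  rw [map_sum, ← Equiv.sum_comp e (fun i => pderiv (Sum.inl i) (rename (Equiv.sumCongr e e) f) *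
    pderiv (Sum.inr i) (rename (Equiv.sumCongr e e) g) -
    pderiv (Sum.inr i) (rename (Equiv.sumCongr e e) f) *
    pderiv (Sum.inl i) (rename (Equiv.sumCongr e e) g))]
  refine Finset.sum_congr rfl fun i _ => ?_
  rw [hl, hl, hr, hr, map_sub, map_mul, map_mul]

/-- semi-invariants in the two notations -/
theorem mem_Wt_iff {m d : ℕ} {ρ : (Fin d → kˣ) →* (Pol k m ≃ₐ[k] Pol k m)} (χ : Fin d → ℤ)
    (f : Pol k m) :
    f ∈ Wt ρ χ ↔ ∀ t, ρ t f = C (((∏ l, (t l) ^ (χ l) : kˣ)) : k) * f := by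
  constructor
  · intro h t
    rw [h t, smul_eq_C_mul]; rfl
  · intro h t
    rw [h t, smul_eq_C_mul]; rfl

end

/-- the three criteria -/
theorem final (hRPL : T_RPL) (hMNA : T_MNA) (hMNR : T_MNR) (hPPC : T_PPC) (hMNM : T_MNM)
    (hASL : T_ASL) (hGNK : T_GNK) (hREA : T_REA) (hREB : T_REB) (hPSE : T_PSE) (hDTI : T_DTI)
    (hFIK : T_FIK) (hHMG : T_HMG) (hFNC : T_FNC) (hSPN : T_SPN) (hSPL : T_SPL) (hFNB : T_FNB)
    (hFIN : T_FIN) (hGRD : T_GRD) (hFIX : T_FIX) (hDAR : T_DAR) (hTRA : T_TRA)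
    (hCJG : T_CJG) (hCCF : T_CCF) (hSMC : T_SMC) (hGAF : T_GAF) (hCNV : T_CNV)
    (k : Type) [Field k] [IsAlgClosed k] [CharZero k] (m d : ℕ) (hd : d + 1 = m)
    (ρ : (Fin d → kˣ) →* (Pol k m ≃ₐ[k] Pol k m)) (hA : AlgAct ρ) (hs : ∀ t, Symp (ρ t))
    (hk : {t | ρ t = 1}.Finite) :
    (Dia ρ ↔ ∃ σ : Multiplicative k →* (Pol k m ≃ₐ[k] Pol k m), AlgGa σ ∧ (∀ s, Symp (σ s)) ∧
      (∃ s, σ s ≠ 1) ∧ ∀ s t, σ s * ρ t = ρ t * σ s) ∧
    (Dia ρ ↔ ∃ (r : ℕ) (f : Fin r → Pol k m) (χ : Fin r → Fin d → ℤ) (n : Fin r → ℕ),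
      Fam (Wt ρ) r f χ n) ∧
    (m = 2 → ∀ i : Fin m, (Dia ρ ↔ ∃ (θ : Pol k m ≃ₐ[k] Pol k m) (e : Fin d → ℤ), Symp θ ∧
      θ (X (Sum.inl i)) ∈ Wt ρ e)) := by
  have h1 : Dia ρ → ∃ σ : Multiplicative k →* (Pol k m ≃ₐ[k] Pol k m), AlgGa σ ∧
      (∀ s, Symp (σ s)) ∧ (∃ s, σ s ≠ 1) ∧ ∀ s t, σ s * ρ t = ρ t * σ s := by
    rintro ⟨φ, hφ, w, hw⟩
    exact hCNV k m d ρ φ w (by omega) hφ hw
  have h2 : (∃ σ : Multiplicative k →* (Pol k m ≃ₐ[k] Pol k m), AlgGa σ ∧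
      (∀ s, Symp (σ s)) ∧ (∃ s, σ s ≠ 1) ∧ ∀ s t, σ s * ρ t = ρ t * σ s) →
      ∃ f : Pol k m, f ∈ Wt ρ 0 ∧ (¬ ∃ c : k, f = C c) ∧ ∀ g, ∃ n : ℕ, (br f)^[n] g = 0 := by
    rintro ⟨σ, h3, h4, h5, h6⟩
    exact hGAF k m d ρ σ hA hs h3 h4 h5 h6
  have h3 : (∃ f : Pol k m, f ∈ Wt ρ 0 ∧ (¬ ∃ c : k, f = C c) ∧
      ∀ g, ∃ n : ℕ, (br f)^[n] g = 0) → Dia ρ := by
    rintro ⟨f, hf0, hfn, hfl⟩
    exact asm_ham hRPL hMNA hMNR hPPC hMNM hASL hGNK hREA hREB hPSE hDTI hFIK hHMG hFNC hSPN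
      hSPL hFNB hFIN hGRD hFIX hDAR hTRA hCJG m d hd ρ hA hs hk f hf0 hfn hfl
  have hG : Gr (Wt ρ) := hGRD k _ d ρ hA
  refine ⟨⟨h1, fun h => h3 (h2 h)⟩, ⟨fun h => ?_, ?_⟩, ?_⟩
  · obtain ⟨f, hf0, hfn, hfl⟩ := h2 (h1 h)
    refine ⟨1, fun _ => f, fun _ => 0, fun _ => 1, fun _ => hf0, fun _ => hfn,
      fun _ _ => br_self f, fun _ => hfl, ⟨0, one_ne_zero⟩, ?_⟩
    simp
  · rintro ⟨r, f, χ, n, hF⟩
    obtain ⟨g, hg0, hgn, hgl⟩ := fam_ham hCCF hG hF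
    exact h3 ⟨g, hg0, hgn, hgl⟩
  · intro hm i
    subst hm
    obtain rfl : d = 1 := by omega
    refine ⟨fun h => dia_coord h i, ?_⟩
    rintro ⟨θ, e, hθ, he⟩
    obtain ⟨θ', hθ', he'⟩ : ∃ θ' : Pol k 2 ≃ₐ[k] Pol k 2, Symp θ' ∧
        θ' (X (Sum.inl 0)) ∈ Wt ρ e := by
      refine ⟨θ * (renameEquiv k (Equiv.sumCongr (Equiv.swap 0 i) (Equiv.swap 0 i))),
        symp_mul hθ (symp_perm _), ?_⟩
      have h5 : (θ * (renameEquiv k (Equiv.sumCongr (Equiv.swap 0 i) (Equiv.swap 0 i)) :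
          Pol k 2 ≃ₐ[k] Pol k 2)) (X (Sum.inl 0)) = θ (X (Sum.inl i)) := by
        change θ (rename _ (X (Sum.inl 0))) = _
        rw [rename_X]
        simp
      rw [h5]
      exact he
    exact asm_coord hRPL hMNA hMNR hPPC hMNM hASL hGNK hREA hREB hPSE hDTI hFIK hHMG hFNC hSPN
      hSPL hFNB hFIN hGRD hFIX hDAR hTRA hCJG hCCF hSMC ρ hA hs hk θ' hθ' e he'

end Pool.Agent.H15.TG
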