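import Pool.Agent.H15.TG.Targets2

/-!
Symplectic torus actions commuting with a unipotent one-parameter group (MP_51eb24_ag):
a further target of the board `tga_modules`.
-/

set_option autoImplicit false

namespace Pool.Agent.H15.TG

open MvPolynomial Pool.Agent.H2.ST

/-- a symplectic coordinate with nonnegative weights gives a family of commuting semi-invariants
in dimension four -/
def T_SMD : Prop := ∀ (k : Type) [Field k] [CharZero k]
  (W : (Fin 1 → ℤ) → Submodule k (Pol k 2)) (θ : Pol k 2 ≃ₐ[k] Pol k 2) (h : PGr W),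
  Symp θ → (∀ e : Fin 1 → ℤ, e 0 < 0 → cmp h.toGr (θ (X (Sum.inl 0))) e = 0) →
  ∃ (r : ℕ) (f : Fin r → Pol k 2) (χ : Fin r → Fin 1 → ℤ) (n : Fin r → ℕ), Fam W r f χ n

end Pool.Agent.H15.TG
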