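import Pool.Agent.H15.TG.Fin
import Pool.Agent.H15.TG.Targets3
import Pool.Agent.H4.TG.SMD

/-!
Symplectic torus actions commuting with a unipotent one-parameter group (MP_51eb24_ag):
symplectic coordinates with weights of one sign, in dimension four.
-/

set_option autoImplicit false

namespace Pool.Agent.H15.TG

open MvPolynomial Pool.Agent.H2.ST

set_option linter.unusedSectionVars false

section

variable {k : Type} [Field k] [IsAlgClosed k] [CharZero k]

/-- components of an element whose orbit is a Laurent polynomial -/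
theorem cmp_zero_of_orbit (hCHI : T_CHI) {m : ℕ} {ρ : (Fin 1 → kˣ) →* (Pol k m ≃ₐ[k] Pol k m)}
    (h : Gr (Wt ρ)) (v : Pol k m) (s : ℤ) (F : Polynomial (Pol k m))
    (hF : ∀ t, ρ t v = F.sum fun i a => (((t 0 ^ (s * (i : ℤ)) : kˣ)) : k) • a)
    (e : Fin 1 → ℤ) (he : ∀ i : ℕ, e 0 ≠ s * (i : ℤ)) : cmp h v e = 0 := by
  classical
  -- orbit in terms of the components
  have h1 : ∀ t, ρ t v = (cmp h v).sum fun χ x => ((chr χ t : kˣ) : k) • x := by
    intro t
    conv_lhs => rw [← cmp_sum h v]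
    unfold Finsupp.sum
    rw [map_sum]
    refine Finset.sum_congr rfl fun χ _ => ?_
    exact cmp_mem h v χ t
  let c' : (Fin 1 → ℤ) →₀ Pol k m :=
    ∑ i ∈ F.support, Finsupp.single (fun _ : Fin 1 => s * (i : ℤ)) (F.coeff i)
  have h2 : ∀ t : Fin 1 → kˣ, (c'.sum fun χ x => ((chr χ t : kˣ) : k) • x) =
      F.sum fun i a => (((t 0 ^ (s * (i : ℤ)) : kˣ)) : k) • a := by
    intro t
    rw [← Finsupp.sum_finsetSum_index]
    · rw [Polynomial.sum_def]
      refine Finset.sum_congr rfl fun i _ => ?_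
      rw [Finsupp.sum_single_index]
      · congr 2
        unfold chr
        rw [Fin.prod_univ_one]
      · rw [smul_zero]
    · intro χ
      rw [smul_zero]
    · intro χ a b
      rw [smul_add]
  have h3 := hCHI k 1 (Pol k m) ⊥ (cmp h v - c') (fun t => by
    rw [Submodule.mem_bot, Finsupp.sum_sub_index, ← h1, h2, hF, sub_self]
    intro χ a b
    rw [smul_sub]) e
  rw [Submodule.mem_bot, Finsupp.sub_apply, sub_eq_zero] at h3
  rw [h3]
  rw [Finsupp.finsetSum_apply]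
  refine Finset.sum_eq_zero fun i _ => ?_
  rw [Finsupp.single_apply, if_neg]
  intro h4
  exact he i (by rw [← h4])

/-- orbits that are polynomial in `t` -/
theorem orbit_pos {m : ℕ} (F : Polynomial (Pol k m)) (a : kˣ) :
    F.eval (C (a : k)) = F.sum fun i x => (((a ^ ((1 : ℤ) * (i : ℤ)) : kˣ)) : k) • x := by
  rw [Polynomial.eval_eq_sum]
  refine Finset.sum_congr rfl fun i _ => ?_
  beta_reduce
  rw [one_mul, zpow_natCast, Units.val_pow_eq_pow_val, smul_eq_C_mul, C_pow, mul_comm]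

theorem orbit_neg {m : ℕ} (F : Polynomial (Pol k m)) (a : kˣ) :
    F.eval (C (((a⁻¹ : kˣ)) : k)) =
      F.sum fun i x => (((a ^ ((-1 : ℤ) * (i : ℤ)) : kˣ)) : k) • x := by
  rw [Polynomial.eval_eq_sum]
  refine Finset.sum_congr rfl fun i _ => ?_
  beta_reduce
  rw [neg_one_mul, zpow_neg, zpow_natCast, ← inv_pow, Units.val_pow_eq_pow_val, smul_eq_C_mul,
    C_pow, mul_comm]

end

/-- the criterion with weights of one sign -/
theorem half (hRPL : T_RPL) (hMNA : T_MNA) (hMNR : T_MNR) (hPPC : T_PPC) (hMNM : T_MNM)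
    (hASL : T_ASL) (hGNK : T_GNK) (hREA : T_REA) (hREB : T_REB) (hPSE : T_PSE) (hDTI : T_DTI)
    (hFIK : T_FIK) (hHMG : T_HMG) (hFNC : T_FNC) (hSPN : T_SPN) (hSPL : T_SPL) (hFNB : T_FNB)
    (hFIN : T_FIN) (hGRD : T_GRD) (hFIX : T_FIX) (hDAR : T_DAR) (hTRA : T_TRA)
    (hCJG : T_CJG) (hCCF : T_CCF) (hSMD : T_SMD) (hCHI : T_CHI)
    (k : Type) [Field k] [IsAlgClosed k] [CharZero k]
    (ρ : (Fin 1 → kˣ) →* (Pol k 2 ≃ₐ[k] Pol k 2)) (hA : AlgAct ρ) (hs : ∀ t, Symp (ρ t))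
    (hk : {t | ρ t = 1}.Finite) (i : Fin 2) :
    Dia ρ ↔ ∃ (θ : Pol k 2 ≃ₐ[k] Pol k 2) (F : Polynomial (Pol k 2)), Symp θ ∧
      ((∀ t, ρ t (θ (X (Sum.inl i))) = F.eval (C ((t 0 : kˣ) : k))) ∨
        ∀ t, ρ t (θ (X (Sum.inl i))) = F.eval (C (((t 0)⁻¹ : kˣ) : k))) := by
  constructor
  · intro h
    obtain ⟨θ, e, hθ, he⟩ := dia_coord h i
    have hch : ∀ t : Fin 1 → kˣ, chr e t = t 0 ^ e 0 := by
      intro t
      unfold chr
      rw [Fin.prod_univ_one]
    rcases le_total 0 (e 0) with h0 | h0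
    · obtain ⟨n, hn⟩ := Int.eq_ofNat_of_zero_le h0
      refine ⟨θ, Polynomial.C (θ (X (Sum.inl i))) * Polynomial.X ^ n, hθ, Or.inl fun t => ?_⟩
      rw [Polynomial.eval_mul, Polynomial.eval_C, Polynomial.eval_pow, Polynomial.eval_X, he t,
        hch, hn]
      rw [zpow_natCast, Units.val_pow_eq_pow_val, smul_eq_C_mul, C_pow, mul_comm]
    · obtain ⟨n, hn⟩ := Int.eq_ofNat_of_zero_le (neg_nonneg.2 h0)
      refine ⟨θ, Polynomial.C (θ (X (Sum.inl i))) * Polynomial.X ^ n, hθ, Or.inr fun t => ?_⟩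
      rw [Polynomial.eval_mul, Polynomial.eval_C, Polynomial.eval_pow, Polynomial.eval_X, he t,
        hch]
      have h1 : e 0 = -(n : ℤ) := by omega
      rw [h1, zpow_neg, zpow_natCast, ← inv_pow, Units.val_pow_eq_pow_val, smul_eq_C_mul, C_pow,
        mul_comm]
  · rintro ⟨θ, F, hθ, hF⟩
    have hG : Gr (Wt ρ) := hGRD k _ 1 ρ hA
    obtain ⟨p, hp⟩ := hFIX k _ 1 ρ hA
    obtain ⟨τ, ρ', y, w, h1, h3, h4, h5, h6, h7⟩ := local_form hDAR hTRA hCJG ρ hG hs p hp
    -- swap the pairs so that the coordinate has index 0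
    let ε : Pol k 2 ≃ₐ[k] Pol k 2 :=
      renameEquiv k (Equiv.sumCongr (Equiv.swap 0 i) (Equiv.swap 0 i))
    have hε : ε (X (Sum.inl 0)) = X (Sum.inl i) := by
      change rename _ (X (Sum.inl 0)) = _
      rw [rename_X]
      simp
    have hS : Symp (τ * (θ * ε)) := symp_mul h1 (symp_mul hθ (symp_perm _))
    have hv : (τ * (θ * ε)) (X (Sum.inl 0)) = τ (θ (X (Sum.inl i))) := by
      change τ (θ (ε (X (Sum.inl 0)))) = _
      rw [hε]
    have hρ' : ∀ t, ρ' t (τ (θ (X (Sum.inl i)))) = τ (ρ t (θ (X (Sum.inl i)))) := by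
      intro t
      rw [h4 t]
      change τ (ρ t (τ.symm (τ (θ (X (Sum.inl i)))))) = _
      rw [AlgEquiv.symm_apply_apply]
    have hmap : ∀ c : k, τ (F.eval (C c)) = (F.map (τ : Pol k 2 →+* Pol k 2)).eval (C c) := by
      intro c
      have h9 := Polynomial.eval_map_apply (p := F) (f := (τ : Pol k 2 →+* Pol k 2)) (C c)
      have h10 : (τ : Pol k 2 →+* Pol k 2) (C c) = C c := by
        change τ (C c) = C c
        rw [← algebraMap_eq, AlgEquiv.commutes]
      rw [h10] at h9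
      rw [h9]
      rfl
    obtain ⟨r, f, χ, n, hFam⟩ : ∃ (r : ℕ) (f : Fin r → Pol k 2) (χ : Fin r → Fin 1 → ℤ)
        (n : Fin r → ℕ), Fam (Wt ρ') r f χ n := by
      rcases hF with hF | hF
      · refine hSMD k (Wt ρ') (τ * (θ * ε)) h5 hS fun e he => ?_
        rw [hv]
        refine cmp_zero_of_orbit hCHI h5.toGr _ 1 (F.map (τ : Pol k 2 →+* Pol k 2))
          (fun t => ?_) e (fun i => by omega)
        rw [hρ', hF, hmap, orbit_pos]
      · have h10 := Pool.Agent.H14.TG.PGr_equiv (AddEquiv.neg (Fin 1 → ℤ)) h5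
        obtain ⟨r, f, χ, n, hFam⟩ := hSMD k (fun a => Wt ρ' (AddEquiv.neg (Fin 1 → ℤ) a))
          (τ * (θ * ε)) h10 hS fun e he => by
            rw [hv, Pool.Agent.H4.TG.cmp_equiv (AddEquiv.neg (Fin 1 → ℤ)) h5]
            refine cmp_zero_of_orbit hCHI h5.toGr _ (-1) (F.map (τ : Pol k 2 →+* Pol k 2))
              (fun t => ?_) _ (fun i => ?_)
            · rw [hρ', hF, hmap, orbit_neg]
            · change -(e 0) ≠ _
              omega
        obtain ⟨g1, g2, g3, g4, g5, g6⟩ := hFam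
        refine ⟨r, f, fun i => -χ i, n, g1, g2, g3, g4, g5, ?_⟩
        have h11 : ∑ i, (n i : ℤ) • (-χ i) = -∑ i, (n i : ℤ) • χ i := by
          rw [← Finset.sum_neg_distrib]
          exact Finset.sum_congr rfl fun i _ => smul_neg _ _
        rw [h11, g6, neg_zero]
    obtain ⟨g, hg0, hgn, hgl⟩ := fam_ham hCCF h5.toGr hFam
    have hg0' : τ.symm g ∈ Wt ρ 0 := (h6 0 g).1 hg0
    refine asm_ham hRPL hMNA hMNR hPPC hMNM hASL hGNK hREA hREB hPSE hDTI hFIK hHMG hFNC hSPN hSPL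
      hFNB hFIN hGRD hFIX hDAR hTRA hCJG 2 1 rfl ρ hA hs hk (τ.symm g) hg0' ?_ ?_
    · rintro ⟨c, hc⟩
      apply hgn
      refine ⟨c, ?_⟩
      have h9 := congrArg τ hc
      rw [AlgEquiv.apply_symm_apply, ← algebraMap_eq, AlgEquiv.commutes] at h9
      exact h9
    · intro x
      obtain ⟨N, hN⟩ := hgl (τ x)
      refine ⟨N, ?_⟩
      have h9 := iter_conj h1 (τ.symm g) x N
      rw [AlgEquiv.apply_symm_apply, hN] at h9
      exact (map_eq_zero_iff _ τ.injective).1 h9.symm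

end Pool.Agent.H15.TG
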