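import Pool.Agent.H15.TG.Defs

/-!
Symplectic torus actions commuting with a unipotent one-parameter group (MP_51eb24_ag):
targets of the board `tga_modules`.
-/

set_option autoImplicit false

namespace Pool.Agent.H15.TG

open MvPolynomial Pool.Agent.H2.ST

/-! ### General lemmas -/

/-- adding elements moved by derivations -/
def T_AI1 : Prop := ∀ (k A ι κ : Type) [Field k] [CharZero k] [CommRing A] [Algebra k A]
  [Fintype ι] [Fintype κ] [DecidableEq κ] (J : Ideal A) (y : ι → A) (z : κ → A)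
  (D : κ → Derivation k A A), J.IsPrime → (∀ i, ∀ x ∈ J, D i x ∈ J) →
  (∀ i j, D i (y j) ∈ J) → (Matrix.of fun i j => D i (z j)).det ∉ J → Imod k J y →
  Imod k J (Sum.elim y z)

/-- adding a prime -/
def T_AI2 : Prop := ∀ (k A ι : Type) [Field k] [CommRing A] [IsDomain A] [Algebra k A] (σ : A)
  (y : ι → A), Prime σ → Imod k (Ideal.span {σ}) y →
  AlgebraicIndependent k (Sum.elim y fun _ : Unit => σ)

/-- adding homogeneous elements of independent weights -/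
def T_AI3 : Prop := ∀ (k A Γ ι κ : Type) [Field k] [CommRing A] [Algebra k A] [AddCommGroup Γ]
  (W : Γ → Submodule k A) (h : Gr W) (J : Ideal A) (y : ι → A) (g : κ → A) (χ : κ → Γ),
  J.IsPrime → (∀ x ∈ J, ∀ a, cmp h x a ∈ J) → (∀ i, y i ∈ W 0) → (∀ j, g j ∈ W (χ j)) →
  (∀ j, g j ∉ J) → LinearIndependent ℤ χ → Imod k J y → Imod k J (Sum.elim y g)

/-- extension of local nilpotency -/
def T_EXT : Prop := ∀ (k : Type) [Field k] (m : ℕ) (K : Subalgebra k (Pol k m)) (f g : Pol k m),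
  (∀ x ∈ K, br f x ∈ K) → (∀ x ∈ K, br g x ∈ K) → br f g = 0 →
  (∀ x ∈ K, ∃ n : ℕ, (br f)^[n] x = 0) → (∀ x ∈ Cf K f, ∃ n : ℕ, (br g)^[n] x = 0) →
  ∀ x ∈ K, ∃ n : ℕ, (br g)^[n] x = 0

/-- primes of R[X] not meeting R -/
def T_PRX : Prop := ∀ (R : Type) [CommRing R] [IsDomain R] [UniqueFactorizationMonoid R]
  (P : Ideal (Polynomial R)), P.IsPrime → (∀ r : R, Polynomial.C r ∈ P → r = 0) →
  ∃ q : Polynomial R, P = Ideal.span {q}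

/-- one-dimensional algebraically closed subalgebras of polynomial rings -/
def T_UNI : Prop := ∀ (k : Type) [Field k] [IsAlgClosed k] [CharZero k] (σ : Type) [Fintype σ]
  (A : Subalgebra k (MvPolynomial σ k)), (∀ z : MvPolynomial σ k, IsAlgebraic A z → z ∈ A) →
  (∀ a ∈ A, ∀ b ∈ A, ¬ AlgebraicIndependent k ![a, b]) →
  ∃ p ∈ A, ∀ a ∈ A, a ∈ Algebra.adjoin k {p}

/-- integrally closed subalgebras of k[t] -/
def T_UNL : Prop := ∀ (k : Type) [Field k] (B : Subalgebra k (Polynomial k)), IsIntegrallyClosed B →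
  (∃ z ∈ B, 0 < z.natDegree) → ∃ g ∈ B, ∀ b ∈ B, b ∈ Algebra.adjoin k {g}

/-! ### The centralizer of `f` -/

/-- the centralizer of f is factorially closed -/
def T_CFC : Prop := ∀ (k : Type) [Field k] [IsAlgClosed k] [CharZero k] (m d : ℕ)
  (W : (Fin d → ℤ) → Submodule k (Pol k m)) (K : Subalgebra k (Pol k m))
  (H : Fin d → Pol k m) (f : Pol k m), Fd W K H f → ∀ a b : Pol k m, a * b ≠ 0 → a * b ∈ Cf K f → a ∈ Cf K f ∧ b ∈ Cf K f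

/-- the centralizer of f is graded -/
def T_CGR : Prop := ∀ (k : Type) [Field k] [IsAlgClosed k] [CharZero k] (m d : ℕ)
  (W : (Fin d → ℤ) → Submodule k (Pol k m)) (K : Subalgebra k (Pol k m))
  (H : Fin d → Pol k m) (f : Pol k m), ∀ (h : Fd W K H f) (g : Pol k m), g ∈ Cf K f →
  ∀ χ, cmp h.toGr g χ ∈ Cf K f ∧ cmp h.toGr g χ ∈ W χ

/-- occurring weights occur in the centralizer -/
def T_COC : Prop := ∀ (k : Type) [Field k] [IsAlgClosed k] [CharZero k] (m d : ℕ)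
  (W : (Fin d → ℤ) → Submodule k (Pol k m)) (K : Subalgebra k (Pol k m))
  (H : Fin d → Pol k m) (f : Pol k m), Fd W K H f → ∀ χ, Oc W K χ → Oc W (Cf K f) χ

/-- transcendence degree of the centralizer of f -/
def T_TR1 : Prop := ∀ (k : Type) [Field k] [IsAlgClosed k] [CharZero k] (m d : ℕ)
  (W : (Fin d → ℤ) → Submodule k (Pol k m)) (K : Subalgebra k (Pol k m))
  (H : Fin d → Pol k m) (f : Pol k m), Fd W K H f →
  ∀ (ι : Type) [Fintype ι] (F : ι → Pol k m), (∀ i, F i ∈ Cf K f) →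
    AlgebraicIndependent k F → Fintype.card ι ≤ 2 * d + 1

/-- transcendence degree of the invariants -/
def T_TR0 : Prop := ∀ (k : Type) [Field k] [IsAlgClosed k] [CharZero k] (m d : ℕ)
  (W : (Fin d → ℤ) → Submodule k (Pol k m)) (K : Subalgebra k (Pol k m))
  (H : Fin d → Pol k m) (f : Pol k m), Fd W K H f →
  ∀ (ι : Type) [Fintype ι] (F : ι → Pol k m), (∀ i, F i ∈ Cf K f ∧ F i ∈ W 0) →
    AlgebraicIndependent k F → Fintype.card ι ≤ d + 1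

/-- f and H are algebraically independent -/
def T_IND : Prop := ∀ (k : Type) [Field k] [IsAlgClosed k] [CharZero k] (m d : ℕ)
  (W : (Fin d → ℤ) → Submodule k (Pol k m)) (K : Subalgebra k (Pol k m))
  (H : Fin d → Pol k m) (f : Pol k m), Fd W K H f → AlgebraicIndependent k (Sum.elim (fun _ : Unit => f) H)

/-- derivatives, with denominator -/
def T_DV0 : Prop := ∀ (k : Type) [Field k] [IsAlgClosed k] [CharZero k] (m d : ℕ)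
  (W : (Fin d → ℤ) → Submodule k (Pol k m)) (K : Subalgebra k (Pol k m))
  (H : Fin d → Pol k m) (f : Pol k m), Fd W K H f →
  ∀ x : Pol k m, x ∈ Cf K f → x ∈ W 0 → ∃ (p0 : Pol k m) (p : Fin d → Pol k m), p0 ≠ 0 ∧
    p0 ∈ Cf K f ∧ p0 ∈ W 0 ∧ (∀ j, p j ∈ Cf K f ∧ p j ∈ W 0) ∧
    ∀ (χ : Fin d → ℤ) (g : Pol k m), g ∈ Cf K f → g ∈ W χ →
      p0 * br g x = -(g * ∑ j, ((χ j : ℤ) : k) • p j)

/-- derivatives exist -/
def T_DVE : Prop := ∀ (k : Type) [Field k] [IsAlgClosed k] [CharZero k] (m d : ℕ)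
  (W : (Fin d → ℤ) → Submodule k (Pol k m)) (K : Subalgebra k (Pol k m))
  (H : Fin d → Pol k m) (f : Pol k m), Fd W K H f →
  ∀ x : Pol k m, x ∈ Cf K f → x ∈ W 0 → ∃ y : Fin d → Pol k m, Dv W K f x y

/-- rules for derivatives -/
def T_DVR : Prop := ∀ (k : Type) [Field k] [IsAlgClosed k] [CharZero k] (m d : ℕ)
  (W : (Fin d → ℤ) → Submodule k (Pol k m)) (K : Subalgebra k (Pol k m))
  (H : Fin d → Pol k m) (f : Pol k m), Fd W K H f →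
  (∀ (x : Pol k m) (y y' : Fin d → Pol k m), Dv W K f x y → Dv W K f x y' → y = y') ∧
  (∀ (x : Pol k m) (y : Fin d → Pol k m), Dv W K f x y → ∀ j, y j ≠ 0 →
    (y j).totalDegree + 2 ≤ x.totalDegree) ∧
  (∀ (x x' : Pol k m) (y y' : Fin d → Pol k m), Dv W K f x y → Dv W K f x' y' →
    Dv W K f (x + x') (fun j => y j + y' j) ∧ Dv W K f (x * x') (fun j => x * y' j + x' * y j) ∨
    ¬ (x ∈ Cf K f ∧ x ∈ W 0 ∧ x' ∈ Cf K f ∧ x' ∈ W 0)) ∧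
  (∀ i, Dv W K f (H i) (fun j => if j = i then 1 else 0)) ∧
  (∀ c : k, Dv W K f (C c) (fun _ => 0))

/-- the invariants are polynomials in H -/
def T_SLH : Prop := ∀ (k : Type) [Field k] [IsAlgClosed k] [CharZero k] (m d : ℕ)
  (W : (Fin d → ℤ) → Submodule k (Pol k m)) (K : Subalgebra k (Pol k m))
  (H : Fin d → Pol k m) (f : Pol k m), Fd W K H f →
  ∀ x : Pol k m, x ∈ Cf K f → x ∈ W 0 → x ∈ Algebra.adjoin k
    ({z : Pol k m | z ∈ Cf K f ∧ z ∈ W 0 ∧ ∀ g ∈ Cf K f, br g z = 0} ∪ Set.range H)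

/-- replacing f by a generator of the central invariants -/
def T_RPL : Prop := ∀ (k : Type) [Field k] [IsAlgClosed k] [CharZero k] (m d : ℕ)
  (W : (Fin d → ℤ) → Submodule k (Pol k m)) (K : Subalgebra k (Pol k m))
  (H : Fin d → Pol k m) (f : Pol k m), Fd W K H f → ∃ f' : Pol k m, Gd W K H f'

/-- the invariants are polynomials in f and H -/
def T_CZF : Prop := ∀ (k : Type) [Field k] [IsAlgClosed k] [CharZero k] (m d : ℕ)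
  (W : (Fin d → ℤ) → Submodule k (Pol k m)) (K : Subalgebra k (Pol k m))
  (H : Fin d → Pol k m) (f : Pol k m), Gd W K H f → ∀ x : Pol k m, x ∈ Cf K f → x ∈ W 0 →
  ∃ Q : MvPolynomial (Unit ⊕ Fin d) k, aeval (Sum.elim (fun _ => f) H) Q = x

/-! ### Divisors of the invariants -/

/-- divisibility of invariants by a prime of nonzero weight -/
def T_SPE : Prop := ∀ (k : Type) [Field k] [IsAlgClosed k] [CharZero k] (m d : ℕ)
  (W : (Fin d → ℤ) → Submodule k (Pol k m)) (K : Subalgebra k (Pol k m))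
  (H : Fin d → Pol k m) (f : Pol k m), Gd W K H f → ∀ (ψ : Fin d → ℤ) (π : Pol k m), ψ ≠ 0 →
  Prime π → π ∈ Cf K f → π ∈ W ψ → ∃ x, Spx W K f π x

/-- the prime factors of x -/
def T_FAX : Prop := ∀ (k : Type) [Field k] [IsAlgClosed k] [CharZero k] (m d : ℕ)
  (W : (Fin d → ℤ) → Submodule k (Pol k m)) (K : Subalgebra k (Pol k m))
  (H : Fin d → Pol k m) (f : Pol k m), Gd W K H f → ∀ (ψ : Fin d → ℤ) (π x ρ : Pol k m), ψ ≠ 0 →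
  Prime π → π ∈ Cf K f → π ∈ W ψ → Spx W K f π x → Prime ρ → ρ ∣ x →
  ρ ∈ Cf K f ∧ ∃ θ : Fin d → ℤ, θ ≠ 0 ∧ ρ ∈ W θ ∧ Spx W K f ρ x

/-- the case of vanishing derivatives -/
def T_CSP : Prop := ∀ (k : Type) [Field k] [IsAlgClosed k] [CharZero k] (m d : ℕ)
  (W : (Fin d → ℤ) → Submodule k (Pol k m)) (K : Subalgebra k (Pol k m))
  (H : Fin d → Pol k m) (f : Pol k m), Gd W K H f → ∀ (ψ : Fin d → ℤ) (π x : Pol k m), ψ ≠ 0 →
  Prime π → π ∈ Cf K f → π ∈ W ψ → Spx W K f π x → Dv W K f x (fun _ => 0) →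
  Spx W K f π f

/-- elements coprime to x -/
def T_LZC : Prop := ∀ (k : Type) [Field k] [IsAlgClosed k] [CharZero k] (m d : ℕ)
  (W : (Fin d → ℤ) → Submodule k (Pol k m)) (K : Subalgebra k (Pol k m))
  (H : Fin d → Pol k m) (f : Pol k m), Gd W K H f → ∀ (ψ : Fin d → ℤ) (π x : Pol k m) (y : Fin d → Pol k m), ψ ≠ 0 →
  Prime π → π ∈ Cf K f → π ∈ W ψ → Spx W K f π x → Dv W K f x y →
  ∀ (χ : Fin d → ℤ) (g : Pol k m), g ∈ Cf K f → g ∈ W χ → g ≠ 0 →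
    (∀ ρ, Prime ρ → ρ ∣ x → ¬ ρ ∣ g) → ∑ j, ((χ j : ℤ) : k) • y j = 0

/-- three prime factors -/
def T_LZT : Prop := ∀ (k : Type) [Field k] [IsAlgClosed k] [CharZero k] (m d : ℕ)
  (W : (Fin d → ℤ) → Submodule k (Pol k m)) (K : Subalgebra k (Pol k m))
  (H : Fin d → Pol k m) (f : Pol k m), Gd W K H f → ∀ (ψ : Fin d → ℤ) (π π' c x : Pol k m) (y : Fin d → Pol k m),
  ψ ≠ 0 → Prime π → π ∈ Cf K f → π ∈ W ψ → Spx W K f π x → Dv W K f x y →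
  x = π * π' * c → Prime π' → ¬ IsUnit c → ∑ j, ((ψ j : ℤ) : k) • y j = 0

/-- exactly two prime factors -/
def T_TWA : Prop := ∀ (k : Type) [Field k] [IsAlgClosed k] [CharZero k] (m d : ℕ)
  (W : (Fin d → ℤ) → Submodule k (Pol k m)) (K : Subalgebra k (Pol k m))
  (H : Fin d → Pol k m) (f : Pol k m), Gd W K H f → ∀ (ψ : Fin d → ℤ) (π x : Pol k m) (y : Fin d → Pol k m), ψ ≠ 0 →
  Prime π → π ∈ Cf K f → π ∈ W ψ → Spx W K f π x → Dv W K f x y → (∃ j, y j ≠ 0) →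
  ∃ σ, Prime σ ∧ σ ∈ Cf K f ∧ σ ∈ W (-ψ) ∧ x = π * σ

/-- the data of the two primes -/
def T_TWB : Prop := ∀ (k : Type) [Field k] [IsAlgClosed k] [CharZero k] (m d : ℕ)
  (W : (Fin d → ℤ) → Submodule k (Pol k m)) (K : Subalgebra k (Pol k m))
  (H : Fin d → Pol k m) (f : Pol k m), Gd W K H f → ∀ (ψ : Fin d → ℤ) (π σ : Pol k m) (y : Fin d → Pol k m), ψ ≠ 0 →
  Prime π → π ∈ Cf K f → π ∈ W ψ → Prime σ → σ ∈ Cf K f → σ ∈ W (-ψ) →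
  Spx W K f π (π * σ) → Dv W K f (π * σ) y → (∃ j, y j ≠ 0) →
  ∃ (q : Pol k m) (l : (Fin d → ℤ) → ℤ), Tw W K H f π σ q y ψ l

/-! ### Two primes -/

/-- the bracket with sigma is locally nilpotent -/
def T_NSG : Prop := ∀ (k : Type) [Field k] [IsAlgClosed k] [CharZero k] (m d : ℕ)
  (W : (Fin d → ℤ) → Submodule k (Pol k m)) (K : Subalgebra k (Pol k m))
  (H : Fin d → Pol k m) (f π σ q : Pol k m) (y : Fin d → Pol k m) (ψ : Fin d → ℤ)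
  (l : (Fin d → ℤ) → ℤ), Tw W K H f π σ q y ψ l →
  ∀ g ∈ K, ∃ n : ℕ, (br σ)^[n] g = 0

/-- f is not central modulo sigma -/
def T_ZSG : Prop := ∀ (k : Type) [Field k] [IsAlgClosed k] [CharZero k] (m d : ℕ)
  (W : (Fin d → ℤ) → Submodule k (Pol k m)) (K : Subalgebra k (Pol k m))
  (H : Fin d → Pol k m) (f π σ q : Pol k m) (y : Fin d → Pol k m) (ψ : Fin d → ℤ)
  (l : (Fin d → ℤ) → ℤ), Tw W K H f π σ q y ψ l →
  ∃ z ∈ K, ¬ σ ∣ br f z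

/-- last iterates modulo sigma -/
def T_KAP : Prop := ∀ (k : Type) [Field k] [IsAlgClosed k] [CharZero k] (m d : ℕ)
  (W : (Fin d → ℤ) → Submodule k (Pol k m)) (K : Subalgebra k (Pol k m))
  (H : Fin d → Pol k m) (f π σ q : Pol k m) (y : Fin d → Pol k m) (ψ : Fin d → ℤ)
  (l : (Fin d → ℤ) → ℤ), Tw W K H f π σ q y ψ l →
  ∀ (χ : Fin d → ℤ) (g : Pol k m), g ∈ K → g ∈ W χ → l χ < 0 → ¬ σ ∣ g →
  ∃ (χ' : Fin d → ℤ) (κ : Pol k m), κ ∈ K ∧ κ ∈ W χ' ∧ l χ' < 0 ∧ ¬ σ ∣ κ ∧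
    σ ∣ br f κ ∧ σ ∣ br σ κ

/-- homogeneous elements not divisible by sigma -/
def T_GIS : Prop := ∀ (k : Type) [Field k] [IsAlgClosed k] [CharZero k] (m d : ℕ)
  (W : (Fin d → ℤ) → Submodule k (Pol k m)) (K : Subalgebra k (Pol k m))
  (H : Fin d → Pol k m) (f π σ q : Pol k m) (y : Fin d → Pol k m) (ψ : Fin d → ℤ)
  (l : (Fin d → ℤ) → ℤ), Tw W K H f π σ q y ψ l →
  ∃ (χ : Fin (d - 1) → Fin d → ℤ) (g : Fin (d - 1) → Pol k m),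
  (∀ i, g i ∈ Cf K f ∧ g i ∈ W (χ i) ∧ ¬ σ ∣ g i ∧ l (χ i) = 0) ∧
  ∀ χ' : Fin d → ℤ, Oc W K χ' → l χ' ≠ 0 →
    LinearIndependent ℤ (Sum.elim χ (fun _ : Unit => χ'))

/-- f and all but one of the H are independent modulo sigma -/
def T_IMS : Prop := ∀ (k : Type) [Field k] [IsAlgClosed k] [CharZero k] (m d : ℕ)
  (W : (Fin d → ℤ) → Submodule k (Pol k m)) (K : Subalgebra k (Pol k m))
  (H : Fin d → Pol k m) (f π σ q : Pol k m) (y : Fin d → Pol k m) (ψ : Fin d → ℤ)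
  (l : (Fin d → ℤ) → ℤ), Tw W K H f π σ q y ψ l →
  ∃ j0 : Fin d, Imod k (Ideal.span {σ})
  (Sum.elim (fun _ : Unit => f) (fun i : {i : Fin d // i ≠ j0} => H i.1))

/-- elements of K of negative l are divisible by sigma -/
def T_DVS : Prop := ∀ (k : Type) [Field k] [IsAlgClosed k] [CharZero k] (m d : ℕ)
  (W : (Fin d → ℤ) → Submodule k (Pol k m)) (K : Subalgebra k (Pol k m))
  (H : Fin d → Pol k m) (f π σ q : Pol k m) (y : Fin d → Pol k m) (ψ : Fin d → ℤ)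
  (l : (Fin d → ℤ) → ℤ), Tw W K H f π σ q y ψ l →
  ∀ (χ : Fin d → ℤ) (g : Pol k m), g ∈ K → g ∈ W χ → l χ < 0 → σ ∣ g

/-! ### Divisors of the invariants -/

/-- every prime of nonzero weight divides f -/
def T_SON : Prop := ∀ (k : Type) [Field k] [IsAlgClosed k] [CharZero k] (m d : ℕ)
  (W : (Fin d → ℤ) → Submodule k (Pol k m)) (K : Subalgebra k (Pol k m))
  (H : Fin d → Pol k m) (f : Pol k m), Gd W K H f → ∀ (ψ : Fin d → ℤ) (π : Pol k m), ψ ≠ 0 →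
  Prime π → π ∈ Cf K f → π ∈ W ψ → Spx W K f π f

/-! ### Monomial structure -/

/-- monomial structure, with an unknown number of primes -/
def T_MNA : Prop := ∀ (k : Type) [Field k] [IsAlgClosed k] [CharZero k] (m d : ℕ)
  (W : (Fin d → ℤ) → Submodule k (Pol k m)) (K : Subalgebra k (Pol k m))
  (H : Fin d → Pol k m) (f : Pol k m), Gd W K H f → ∃ (n : ℕ) (π : Fin n → Pol k m) (ψ : Fin n → Fin d → ℤ)
  (a : Fin n → ℕ) (c0 : k), 0 < n ∧ MnP W K f n π ψ a c0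

/-- the number of primes -/
def T_MNR : Prop := ∀ (k : Type) [Field k] [IsAlgClosed k] [CharZero k] (m d : ℕ)
  (W : (Fin d → ℤ) → Submodule k (Pol k m)) (K : Subalgebra k (Pol k m))
  (H : Fin d → Pol k m) (f : Pol k m), Gd W K H f → ∀ (n : ℕ) (π : Fin n → Pol k m) (ψ : Fin n → Fin d → ℤ)
  (a : Fin n → ℕ) (c0 : k), 0 < n → MnP W K f n π ψ a c0 → n = d + 1

/-- the primes commute -/
def T_PPC : Prop := ∀ (k : Type) [Field k] [IsAlgClosed k] [CharZero k] (m d : ℕ)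
  (W : (Fin d → ℤ) → Submodule k (Pol k m)) (K : Subalgebra k (Pol k m))
  (H : Fin d → Pol k m) (f : Pol k m) (π : Fin (d + 1) → Pol k m)
  (ψ : Fin (d + 1) → Fin d → ℤ) (a : Fin (d + 1) → ℕ) (c0 : k), Mn W K H f π ψ a c0 →
  ∀ i j, br (π i) (π j) = 0

/-- the centralizer of f is a polynomial ring -/
def T_CPH : Prop := ∀ (k : Type) [Field k] [IsAlgClosed k] [CharZero k] (m d : ℕ)
  (W : (Fin d → ℤ) → Submodule k (Pol k m)) (K : Subalgebra k (Pol k m))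
  (H : Fin d → Pol k m) (f : Pol k m) (π : Fin (d + 1) → Pol k m)
  (ψ : Fin (d + 1) → Fin d → ℤ) (a : Fin (d + 1) → ℕ) (c0 : k), Mn W K H f π ψ a c0 →
  AlgebraicIndependent k (Sum.elim π H) ∧
  ∀ g ∈ Cf K f, ∃ Q : MvPolynomial (Fin (d + 1) ⊕ Fin d) k, aeval (Sum.elim π H) Q = g

/-- the brackets with the primes are locally nilpotent -/
def T_PNL : Prop := ∀ (k : Type) [Field k] [IsAlgClosed k] [CharZero k] (m d : ℕ)
  (W : (Fin d → ℤ) → Submodule k (Pol k m)) (K : Subalgebra k (Pol k m))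
  (H : Fin d → Pol k m) (f : Pol k m) (π : Fin (d + 1) → Pol k m)
  (ψ : Fin (d + 1) → Fin d → ℤ) (a : Fin (d + 1) → ℕ) (c0 : k), Mn W K H f π ψ a c0 →
  ∀ i, ∀ g ∈ K, ∃ n : ℕ, (br (π i))^[n] g = 0

/-- the common centralizer of the primes -/
def T_PCN : Prop := ∀ (k : Type) [Field k] [IsAlgClosed k] [CharZero k] (m d : ℕ)
  (W : (Fin d → ℤ) → Submodule k (Pol k m)) (K : Subalgebra k (Pol k m))
  (H : Fin d → Pol k m) (f : Pol k m) (π : Fin (d + 1) → Pol k m)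
  (ψ : Fin (d + 1) → Fin d → ℤ) (a : Fin (d + 1) → ℕ) (c0 : k), Mn W K H f π ψ a c0 →
  ∀ z ∈ K, (∀ i, br (π i) z = 0) → z ∈ Kp π

/-- k[pi] is factorially closed -/
def T_PFC : Prop := ∀ (k : Type) [Field k] [IsAlgClosed k] [CharZero k] (m d : ℕ)
  (W : (Fin d → ℤ) → Submodule k (Pol k m)) (K : Subalgebra k (Pol k m))
  (H : Fin d → Pol k m) (f : Pol k m) (π : Fin (d + 1) → Pol k m)
  (ψ : Fin (d + 1) → Fin d → ℤ) (a : Fin (d + 1) → ℕ) (c0 : k), Mn W K H f π ψ a c0 →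
  ∀ a' b' : Pol k m, a' * b' ≠ 0 → a' * b' ∈ Kp π → a' ∈ Kp π ∧ b' ∈ Kp π

/-- dual coefficients -/
def T_DUA : Prop := ∀ (k : Type) [Field k] [IsAlgClosed k] [CharZero k] (m d : ℕ)
  (W : (Fin d → ℤ) → Submodule k (Pol k m)) (K : Subalgebra k (Pol k m))
  (H : Fin d → Pol k m) (f : Pol k m) (π : Fin (d + 1) → Pol k m)
  (ψ : Fin (d + 1) → Fin d → ℤ) (a : Fin (d + 1) → ℕ) (c0 : k), Mn W K H f π ψ a c0 →
  ∀ j0, ∃ b : Fin (d + 1) → Fin d → k, Du ψ a k j0 b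

/-- rules for the Hamiltonians with coefficients -/
def T_GBR : Prop := ∀ (k : Type) [Field k] [IsAlgClosed k] [CharZero k] (m d : ℕ)
  (W : (Fin d → ℤ) → Submodule k (Pol k m)) (K : Subalgebra k (Pol k m))
  (H : Fin d → Pol k m) (f : Pol k m), Dat W K H → ∀ b : Fin d → k,
  Gb H b ∈ K ∧ Gb H b ∈ W 0 ∧ constantCoeff (Gb H b) = 0 ∧
  ∀ (χ : Fin d → ℤ) (g : Pol k m), g ∈ K → g ∈ W χ →
    br (Gb H b) g = (∑ t, b t * ((χ t : ℤ) : k)) • g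

/-- f - c is prime -/
def T_FCP : Prop := ∀ (k : Type) [Field k] [IsAlgClosed k] [CharZero k] (m d : ℕ)
  (W : (Fin d → ℤ) → Submodule k (Pol k m)) (K : Subalgebra k (Pol k m))
  (H : Fin d → Pol k m) (f : Pol k m) (π : Fin (d + 1) → Pol k m)
  (ψ : Fin (d + 1) → Fin d → ℤ) (a : Fin (d + 1) → ℕ) (c0 : k), Mn W K H f π ψ a c0 →
  ∀ c : k, c ≠ 0 → Prime (f - C c)

/-! ### Slices modulo primes -/

/-- elements of weight zero commuting modulo a prime -/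
def T_CKP : Prop := ∀ (k : Type) [Field k] [IsAlgClosed k] [CharZero k] (m d : ℕ)
  (W : (Fin d → ℤ) → Submodule k (Pol k m)) (K : Subalgebra k (Pol k m))
  (H : Fin d → Pol k m) (f : Pol k m) (π : Fin (d + 1) → Pol k m)
  (ψ : Fin (d + 1) → Fin d → ℤ) (a : Fin (d + 1) → ℕ) (c0 : k), Mn W K H f π ψ a c0 →
  ∀ (i : Fin (d + 1)) (y : Pol k m), y ∈ K → y ∈ W 0 → (∀ j, π i ∣ br (π j) y) →
  ∃ c : k, π i ∣ y - C c

/-- elements of weight zero commuting modulo f - c -/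
def T_CKF : Prop := ∀ (k : Type) [Field k] [IsAlgClosed k] [CharZero k] (m d : ℕ)
  (W : (Fin d → ℤ) → Submodule k (Pol k m)) (K : Subalgebra k (Pol k m))
  (H : Fin d → Pol k m) (f : Pol k m) (π : Fin (d + 1) → Pol k m)
  (ψ : Fin (d + 1) → Fin d → ℤ) (a : Fin (d + 1) → ℕ) (c0 : k), Mn W K H f π ψ a c0 →
  ∀ (c : k) (y : Pol k m), c ≠ 0 → y ∈ K → y ∈ W 0 →
  (∀ j, (f - C c) ∣ br (π j) y) → ∃ c' : k, (f - C c) ∣ y - C c'

/-- homogeneous elements of other weights -/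
def T_NEG : Prop := ∀ (k : Type) [Field k] [IsAlgClosed k] [CharZero k] (m d : ℕ)
  (W : (Fin d → ℤ) → Submodule k (Pol k m)) (K : Subalgebra k (Pol k m))
  (H : Fin d → Pol k m) (f : Pol k m) (π : Fin (d + 1) → Pol k m)
  (ψ : Fin (d + 1) → Fin d → ℤ) (a : Fin (d + 1) → ℕ) (c0 : k), Mn W K H f π ψ a c0 →
  ∀ (i : Fin (d + 1)) (χ : Fin d → ℤ) (s : Pol k m) (N : ℕ) (r : Fin (d + 1) → ℕ),
  s ∈ K → s ∈ W χ → (∀ j, π i ∣ br (π j) s) → 0 < N → r i = 0 →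
  (N : ℤ) • χ + ∑ j, (r j : ℤ) • ψ j = 0 → ∃ c : k, π i ∣ s - C c ∧ (χ ≠ 0 → c = 0)

/-- rules for phi -/
def T_PHR : Prop := ∀ (k : Type) [Field k] [IsAlgClosed k] [CharZero k] (m d : ℕ)
  (W : (Fin d → ℤ) → Submodule k (Pol k m)) (K : Subalgebra k (Pol k m))
  (H : Fin d → Pol k m) (f : Pol k m) (π : Fin (d + 1) → Pol k m)
  (ψ : Fin (d + 1) → Fin d → ℤ) (a : Fin (d + 1) → ℕ) (c0 : k), Mn W K H f π ψ a c0 →
  (∀ s : Pol k m, (∏ j, π j) * br f s = f * phi π a s) ∧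
  (∀ s s' : Pol k m, phi π a (s + s') = phi π a s + phi π a s') ∧
  (∀ p s : Pol k m, (∀ i, br (π i) p = 0) → phi π a (p * s) = p * phi π a s) ∧
  (∀ s ∈ Cf K f, phi π a s = 0) ∧
  (∀ (χ : Fin d → ℤ) (s : Pol k m), s ∈ W χ → phi π a s ∈ W (χ + ∑ i, ψ i))

/-- existence of an element with brackets in k[pi] -/
def T_VEX : Prop := ∀ (k : Type) [Field k] [IsAlgClosed k] [CharZero k] (m d : ℕ)
  (W : (Fin d → ℤ) → Submodule k (Pol k m)) (K : Subalgebra k (Pol k m))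
  (H : Fin d → Pol k m) (f : Pol k m) (π : Fin (d + 1) → Pol k m)
  (ψ : Fin (d + 1) → Fin d → ℤ) (a : Fin (d + 1) → ℕ) (c0 : k), Mn W K H f π ψ a c0 →
  ∃ (χ : Fin d → ℤ) (s : Pol k m), Vd W K f π χ s

/-- divisibility of phi(s) by f - c -/
def T_RFC : Prop := ∀ (k : Type) [Field k] [IsAlgClosed k] [CharZero k] (m d : ℕ)
  (W : (Fin d → ℤ) → Submodule k (Pol k m)) (K : Subalgebra k (Pol k m))
  (H : Fin d → Pol k m) (f : Pol k m) (π : Fin (d + 1) → Pol k m)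
  (ψ : Fin (d + 1) → Fin d → ℤ) (a : Fin (d + 1) → ℕ) (c0 : k), Mn W K H f π ψ a c0 →
  ∀ (χ : Fin d → ℤ) (s : Pol k m) (c : k), Vd W K f π χ s → c ≠ 0 →
  (f - C c) ∣ phi π a s → ∃ s' : Pol k m, Vd W K f π χ s' ∧ phi π a s' = phi π a s ∧
    (f - C c) ∣ s'

/-- dividing by elements of k[pi] -/
def T_DIV : Prop := ∀ (k : Type) [Field k] [IsAlgClosed k] [CharZero k] (m d : ℕ)
  (W : (Fin d → ℤ) → Submodule k (Pol k m)) (K : Subalgebra k (Pol k m))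
  (H : Fin d → Pol k m) (f : Pol k m) (π : Fin (d + 1) → Pol k m)
  (ψ : Fin (d + 1) → Fin d → ℤ) (a : Fin (d + 1) → ℕ) (c0 : k), Mn W K H f π ψ a c0 →
  ∀ (χ θ : Fin d → ℤ) (s p s1 : Pol k m), Vd W K f π χ s → p ∈ Kp π → p ∈ W θ →
  s = p * s1 → Vd W K f π (χ - θ) s1 ∧ phi π a s = p * phi π a s1

/-- homogeneous elements of k[pi] -/
def T_HKP : Prop := ∀ (k : Type) [Field k] [IsAlgClosed k] [CharZero k] (m d : ℕ)
  (W : (Fin d → ℤ) → Submodule k (Pol k m)) (K : Subalgebra k (Pol k m))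
  (H : Fin d → Pol k m) (f : Pol k m) (π : Fin (d + 1) → Pol k m)
  (ψ : Fin (d + 1) → Fin d → ℤ) (a : Fin (d + 1) → ℕ) (c0 : k), Mn W K H f π ψ a c0 →
  ∀ (θ : Fin d → ℤ) (p : Pol k m), p ∈ Kp π → p ∈ W θ → p ≠ 0 →
  (∃ c : k, c ≠ 0 ∧ (f - C c) ∣ p) ∨
    ∃ (c' : k) (n : Fin (d + 1) → ℕ), c' ≠ 0 ∧ p = C c' * ∏ i, π i ^ n i

/-- shift to a single nonzero bracket -/
def T_SHF : Prop := ∀ (k : Type) [Field k] [IsAlgClosed k] [CharZero k] (m d : ℕ)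
  (W : (Fin d → ℤ) → Submodule k (Pol k m)) (K : Subalgebra k (Pol k m))
  (H : Fin d → Pol k m) (f : Pol k m) (π : Fin (d + 1) → Pol k m)
  (ψ : Fin (d + 1) → Fin d → ℤ) (a : Fin (d + 1) → ℕ) (c0 : k), Mn W K H f π ψ a c0 →
  ∀ (χ : Fin d → ℤ) (s : Pol k m) (c' : k) (b : Fin (d + 1) → ℕ),
  Vd W K f π χ s → c' ≠ 0 → phi π a s = C c' * ∏ i, π i ^ b i →
  (∀ i j, i ≠ j → b i ≠ 0 ∨ b j ≠ 0) ∧ χ = ∑ i, ((b i : ℤ) - 1) • ψ i ∧
  ∀ j0, (∀ i, i ≠ j0 → b i ≠ 0) → ∃ (s' : Pol k m) (c'' : k) (β : Fin (d + 1) → ℕ),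
    Vd W K f π χ s' ∧ phi π a s' = phi π a s ∧ (∀ i, i ≠ j0 → br (π i) s' = 0) ∧
    c'' ≠ 0 ∧ br (π j0) s' = C c'' * ∏ i, π i ^ β i ∧ β j0 = b j0 ∧
    ∀ i, i ≠ j0 → β i + 1 = b i

/-- combinatorics of exponents -/
def T_CMB : Prop := ∀ (n : ℕ) (a b : Fin (n + 1) → ℕ), 0 < n → (∀ i, 0 < a i) →
  (∀ i j, i ≠ j → b i ≠ 0 ∨ b j ≠ 0) →
  (∃ j0, b j0 = 0 ∧ ∀ i, i ≠ j0 → b i = 1) ∨
  ∃ j0 i, (∀ l, l ≠ j0 → b l ≠ 0) ∧ (i = j0 → b i ≠ 0) ∧ (i ≠ j0 → 2 ≤ b i) ∧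
    ∃ (N : ℕ) (r : Fin (n + 1) → ℕ) (M : ℤ), 0 < N ∧ r i = 0 ∧
      ∀ l, (r l : ℤ) = -((N : ℤ) * ((b l : ℤ) - 1)) + M * (a l : ℤ)

/-! ### Coordinates -/

/-- one slice -/
def T_MNM : Prop := ∀ (k : Type) [Field k] [IsAlgClosed k] [CharZero k] (m d : ℕ)
  (W : (Fin d → ℤ) → Submodule k (Pol k m)) (K : Subalgebra k (Pol k m))
  (H : Fin d → Pol k m) (f : Pol k m) (π : Fin (d + 1) → Pol k m)
  (ψ : Fin (d + 1) → Fin d → ℤ) (a : Fin (d + 1) → ℕ) (c0 : k), Mn W K H f π ψ a c0 →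
  ∃ (j0 : Fin (d + 1)) (r : Pol k m), r ∈ K ∧ r ∈ W (-ψ j0) ∧
  (∀ l, l ≠ j0 → br (π l) r = 0) ∧ br (π j0) r = 1

/-- all slices -/
def T_ASL : Prop := ∀ (k : Type) [Field k] [IsAlgClosed k] [CharZero k] (m d : ℕ)
  (W : (Fin d → ℤ) → Submodule k (Pol k m)) (K : Subalgebra k (Pol k m))
  (H : Fin d → Pol k m) (f : Pol k m) (π : Fin (d + 1) → Pol k m)
  (ψ : Fin (d + 1) → Fin d → ℤ) (a : Fin (d + 1) → ℕ) (c0 : k), Mn W K H f π ψ a c0 →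
  ∀ (j0 : Fin (d + 1)) (r : Pol k m), r ∈ K → r ∈ W (-ψ j0) →
  (∀ l, l ≠ j0 → br (π l) r = 0) → br (π j0) r = 1 →
  ∃ R : Fin (d + 1) → Pol k m, (∀ i, R i ∈ K ∧ R i ∈ W (-ψ i)) ∧
    (∀ l i, br (π l) (R i) = if l = i then 1 else 0) ∧ ∀ i j, br (R i) (R j) = 0

/-- the coordinates generate K -/
def T_GNK : Prop := ∀ (k : Type) [Field k] [IsAlgClosed k] [CharZero k] (m d : ℕ)
  (W : (Fin d → ℤ) → Submodule k (Pol k m)) (K : Subalgebra k (Pol k m))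
  (H : Fin d → Pol k m) (f : Pol k m) (π : Fin (d + 1) → Pol k m)
  (ψ : Fin (d + 1) → Fin d → ℤ) (a : Fin (d + 1) → ℕ) (c0 : k), Mn W K H f π ψ a c0 →
  ∀ R : Fin (d + 1) → Pol k m, (∀ i, R i ∈ K) →
  (∀ l i, br (π l) (R i) = if l = i then 1 else 0) →
  ∀ g ∈ K, g ∈ Algebra.adjoin k (Set.range (Sum.elim π R))

/-! ### Verification of the hypotheses -/

/-- lowest forms -/
def T_ZLF : Prop := ∀ (k : Type) [Field k] (m : ℕ) (Γ : Type) [AddCommGroup Γ]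
  (W : Γ → Submodule k (Pol k m)) (y : Fin m ⊕ Fin m → Pol k m) (w : Fin m → Γ),
  PGr W → Ada W y w →
  (∀ (N : ℕ) (F : Pol k m), F.IsHomogeneous N → aeval y F ∈ (mo k m) ^ (N + 1) → F = 0) ∧
  (∀ f : Pol k m, f ≠ 0 → ∃ (N : ℕ) (F : Pol k m), F.IsHomogeneous N ∧ F ≠ 0 ∧
    f - aeval y F ∈ (mo k m) ^ (N + 1) ∧ ∀ χ, f ∈ W χ → ∀ α ∈ F.support, wtm w α = χ)

/-- the quadratic part of the moment map -/
def T_ZHQ : Prop := ∀ (k : Type) [Field k] [CharZero k] (m : ℕ) (Γ : Type) [AddCommGroup Γ]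
  (W : Γ → Submodule k (Pol k m)) (y : Fin m ⊕ Fin m → Pol k m) (w : Fin m → Γ) (p : Γ →+ k)
  (H : Pol k m), PGr W → Ada W y w → constantCoeff H = 0 →
  (∀ χ, ∀ g ∈ W χ, br H g = (p χ) • g) →
  H + ∑ i, p (w i) • (y (Sum.inl i) * y (Sum.inr i)) ∈ (mo k m) ^ 3

/-- divisors in the polynomial ring -/
def T_ZFC : Prop := ∀ (k : Type) [Field k] (m d : ℕ) (w : Fin m → Fin d → ℤ) (P : Pol k m)
  (Q : MvPolynomial (Fin d) k) (χ : Fin d → ℤ),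
  (∀ i, w i ≠ 0 → ∀ l : Fin d → k, (∀ j, j ≠ i → ∑ t, l t * ((w j t : ℤ) : k) = 0) → l = 0) →
  χ ≠ 0 → P ≠ 0 → (∀ α ∈ P.support, wtm w α = χ) →
  P ∣ aeval (fun t => -∑ i, C ((w i t : ℤ) : k) *
    (X (Sum.inl i) * X (Sum.inr i) : Pol k m)) Q → Q = 0

/-- no invariant polynomial in H is divisible by a semi-invariant -/
def T_ZZR : Prop := ∀ (k : Type) [Field k] [CharZero k] (m d : ℕ)
  (W : (Fin d → ℤ) → Submodule k (Pol k m)) (y : Fin m ⊕ Fin m → Pol k m)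
  (w : Fin m → Fin d → ℤ) (H : Fin d → Pol k m), PGr W → Ada W y w →
  (∀ j, constantCoeff (H j) = 0) →
  (∀ (j : Fin d) (χ : Fin d → ℤ), ∀ g ∈ W χ, br (H j) g = ((χ j : ℤ) : k) • g) →
  (∀ i, w i ≠ 0 → ∀ l : Fin d → k, (∀ j, j ≠ i → ∑ t, l t * ((w j t : ℤ) : k) = 0) → l = 0) →
  ∀ (χ : Fin d → ℤ) (p : Pol k m) (Q : MvPolynomial (Fin d) k), χ ≠ 0 → p ≠ 0 → p ∈ W χ →
    p ∣ aeval H Q → Q = 0

/-- weights and their negatives -/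
def T_KNG : Prop := ∀ (k : Type) [Field k] (m d : ℕ) (W : (Fin d → ℤ) → Submodule k (Pol k m))
  (K : Subalgebra k (Pol k m)) (y : Fin m ⊕ Fin m → Pol k m) (w : Fin m → Fin d → ℤ)
  (κ : Fin m ⊕ Fin m → Pol k m), Kd W K y w κ →
  (∀ i, w i ≠ 0 → κ (Sum.inl i) ≠ 0 ∧ κ (Sum.inr i) ≠ 0) ∧
  (∀ i, w i ≠ 0 → Oc W K (w i) ∧ Oc W K (-w i)) ∧
  (∀ χ, Oc W K χ → Oc W K (-χ)) ∧
  (∀ l : Fin d → k, (∀ χ, Oc W K χ → ∑ t, l t * ((χ t : ℤ) : k) = 0) → l = 0)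

/-- two elements of negative weight without common divisor at the origin -/
def T_KLO : Prop := ∀ (k : Type) [Field k] (m d : ℕ) (W : (Fin d → ℤ) → Submodule k (Pol k m))
  (K : Subalgebra k (Pol k m)) (y : Fin m ⊕ Fin m → Pol k m) (w : Fin m → Fin d → ℤ)
  (κ : Fin m ⊕ Fin m → Pol k m), Kd W K y w κ →
  ∀ l : (Fin d → ℤ) → ℤ,
    (∀ χ χ', Oc W K χ → Oc W K χ' → l (χ + χ') = l χ + l χ') → (∃ χ, Oc W K χ ∧ l χ ≠ 0) →
    ∃ χ χ' : Fin d → ℤ, ∃ g ∈ K, ∃ g' ∈ K, g ∈ W χ ∧ g' ∈ W χ' ∧ l χ < 0 ∧ l χ' < 0 ∧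
      ∀ σ : Pol k m, σ ∣ g → σ ∣ g' → constantCoeff σ ≠ 0

/-- existence of partial splittings -/
def T_PSE : Prop := ∀ (k : Type) [Field k] [CharZero k] (m : ℕ) (Γ : Type) [AddCommGroup Γ]
  [TwoUniqueSums Γ] (W : Γ → Submodule k (Pol k m)) (y : Fin m ⊕ Fin m → Pol k m)
  (w : Fin m → Γ) (S : Fin m → Prop), PGr W → Ada W y w →
  (∀ i, S i → ∃ π : Γ →+ ℤ, 0 < π (w i) ∧ ∀ j, j ≠ i → π (w j) = 0) →
  ∃ (ϖ : Fin m → Γ →+ ℤ) (u v : Fin m → Pol k m) (c : Fin m → k), Ps W w S ϖ u v c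

/-- the centralizer of a partial splitting -/
def T_PSK : Prop := ∀ (k : Type) [Field k] [CharZero k] (m : ℕ) (Γ : Type) [AddCommGroup Γ]
  (W : Γ → Submodule k (Pol k m)) (w : Fin m → Γ) (S : Fin m → Prop) (ϖ : Fin m → Γ →+ ℤ)
  (u v : Fin m → Pol k m) (c : Fin m → k), Ps W w S ϖ u v c →
  (∀ i, S i → ∀ f : Pol k m,
    (∃ n : ℕ, (br (u i))^[n] f = 0) ∧ (∃ n : ℕ, (br (v i))^[n] f = 0)) ∧
  (∀ f : Pol k m, f ∈ Algebra.adjoin k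
    ((KS S u v : Set (Pol k m)) ∪ {p | ∃ i, S i ∧ (p = u i ∨ p = v i)})) ∧
  (∀ (ι : Type) [Fintype ι] (F : ι → Pol k m), (∀ i, F i ∈ KS S u v) →
    AlgebraicIndependent k F → Fintype.card ι + 2 * Nat.card {i // S i} ≤ 2 * m) ∧
  (∀ a b : Pol k m, a * b ≠ 0 → a * b ∈ KS S u v → a ∈ KS S u v ∧ b ∈ KS S u v)

/-- elements of the centralizer with given linear parts -/
def T_PSX : Prop := ∀ (k : Type) [Field k] [CharZero k] (m : ℕ) (Γ : Type) [AddCommGroup Γ]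
  (W : Γ → Submodule k (Pol k m)) (y : Fin m ⊕ Fin m → Pol k m) (w : Fin m → Γ)
  (S : Fin m → Prop) (ϖ : Fin m → Γ →+ ℤ) (u v : Fin m → Pol k m) (c : Fin m → k),
  Ps W w S ϖ u v c → Ada W y w → ∃ κ : Fin m ⊕ Fin m → Pol k m, ∀ i, ¬ S i →
    (κ (Sum.inl i) ∈ KS S u v ∧ κ (Sum.inl i) ∈ W (w i) ∧
      ∀ g, constantCoeff (br (κ (Sum.inl i)) g) = constantCoeff (br (y (Sum.inl i)) g)) ∧
    (κ (Sum.inr i) ∈ KS S u v ∧ κ (Sum.inr i) ∈ W (-w i) ∧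
      ∀ g, constantCoeff (br (κ (Sum.inr i)) g) = constantCoeff (br (y (Sum.inr i)) g))

/-- the centralizer is graded and closed under the bracket -/
def T_PSG : Prop := ∀ (k : Type) [Field k] [CharZero k] (m : ℕ) (Γ : Type) [AddCommGroup Γ]
  (W : Γ → Submodule k (Pol k m)) (w : Fin m → Γ) (S : Fin m → Prop) (ϖ : Fin m → Γ →+ ℤ)
  (u v : Fin m → Pol k m) (c : Fin m → k) (h : Ps W w S ϖ u v c),
  (∀ g ∈ KS S u v, ∀ χ, cmp h.toGr g χ ∈ KS S u v) ∧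
  (∀ a ∈ KS S u v, ∀ b ∈ KS S u v, br a b ∈ KS S u v) ∧
  (∀ (χ : Γ) (g : Pol k m), g ∈ KS S u v → g ∈ W χ → g ≠ 0 → ∀ i, S i → ϖ i χ = 0) ∧
  (∀ p ∈ KS S u v, (∀ g ∈ KS S u v, p ∣ br p g) → ∃ c : k, p = C c)

/-- linear algebra: the relation of the weights -/
def T_REA : Prop := ∀ (n : ℕ) (w : Fin (n + 1) → Fin n → ℤ),
  (∀ l : Fin n → ℤ, l ≠ 0 → ∃ i, ∑ j, l j * w i j ≠ 0) →
  ∃ c : Fin (n + 1) → ℤ, c ≠ 0 ∧ ∑ i, c i • w i = 0 ∧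
    (∀ e : Fin (n + 1) → ℤ, ∑ i, e i • w i = 0 → ∃ N M : ℤ, M ≠ 0 ∧ ∀ i, M * e i = N * c i) ∧
    ∀ i, c i = 0 → ∃ π : (Fin n → ℤ) →+ ℤ, 0 < π (w i) ∧ ∀ j, j ≠ i → π (w j) = 0

/-- linear algebra: projection to the torus acting on the rest -/
def T_REB : Prop := ∀ (k : Type) [Field k] [CharZero k] (n : ℕ) (w : Fin (n + 1) → Fin n → ℤ)
  (c : Fin (n + 1) → ℤ),
  (∀ l : Fin n → ℤ, l ≠ 0 → ∃ i, ∑ j, l j * w i j ≠ 0) → c ≠ 0 → ∑ i, c i • w i = 0 →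
  (∀ e : Fin (n + 1) → ℤ, ∑ i, e i • w i = 0 → ∃ N M : ℤ, M ≠ 0 ∧ ∀ i, M * e i = N * c i) →
  ∀ d : ℕ, d + 1 = Nat.card {i // c i ≠ 0} →
  ∃ Θ : (Fin n → ℤ) →+ (Fin d → ℤ), (∀ i, c i = 0 → Θ (w i) = 0) ∧
    (∀ l : Fin d → k, (∀ i, ∑ t, l t * ((Θ (w i) t : ℤ) : k) = 0) → l = 0) ∧
    (∀ e : Fin (n + 1) → ℤ, (∀ i, c i = 0 → e i = 0) → Θ (∑ i, e i • w i) = 0 →
      ∑ i, e i • w i = 0) ∧
    (0 < d → ∀ i, c i ≠ 0 → Θ (w i) ≠ 0)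

/-- the basic data for the centralizer -/
def T_DTI : Prop := ∀ (k : Type) [Field k] [IsAlgClosed k] [CharZero k] (m d : ℕ) (Γ : Type)
  [AddCommGroup Γ] (W : Γ → Submodule k (Pol k m)) (y : Fin m ⊕ Fin m → Pol k m)
  (w : Fin m → Γ) (S : Fin m → Prop) (ϖ : Fin m → Γ →+ ℤ) (u v : Fin m → Pol k m)
  (c : Fin m → k) (Θ : Γ →+ (Fin d → ℤ)) (e : Fin m → ℤ),
  Ps W w S ϖ u v c → Ada W y w → 0 < d → d + 1 + Nat.card {i // S i} = m →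
  (∀ i, S i → Θ (w i) = 0) →
  (∀ l : Fin d → k, (∀ i, ∑ t, l t * ((Θ (w i) t : ℤ) : k) = 0) → l = 0) →
  (∀ i, ¬ S i → e i ≠ 0) → ∑ i, e i • w i = 0 →
  ∃ H : Fin d → Pol k m, Dat (co W Θ) (KS S u v) H

/-- invariant Hamiltonians lie in the centralizer -/
def T_FIK : Prop := ∀ (k : Type) [Field k] [CharZero k] (m : ℕ) (Γ : Type) [AddCommGroup Γ]
  (W : Γ → Submodule k (Pol k m)) (w : Fin m → Γ) (S : Fin m → Prop) (ϖ : Fin m → Γ →+ ℤ)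
  (u v : Fin m → Pol k m) (c : Fin m → k), Ps W w S ϖ u v c → ∀ f ∈ W 0,
  (∀ g : Pol k m, ∃ n : ℕ, (br f)^[n] g = 0) → f ∈ KS S u v

/-- homogeneity for the original grading -/
def T_HMG : Prop := ∀ (k : Type) [Field k] [CharZero k] (m d : ℕ) (Γ : Type) [AddCommGroup Γ]
  (W : Γ → Submodule k (Pol k m)) (w : Fin m → Γ) (S : Fin m → Prop)
  (ϖ : Fin m → Γ →+ ℤ) (u v : Fin m → Pol k m) (c : Fin m → k) (Θ : Γ →+ (Fin d → ℤ)),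
  Ps W w S ϖ u v c →
  (∀ e : Fin m → ℤ, (∀ i, S i → e i = 0) → Θ (∑ i, e i • w i) = 0 → ∑ i, e i • w i = 0) →
  ∀ (χ : Fin d → ℤ) (g : Pol k m), g ∈ KS S u v → g ∈ co W Θ χ → ∃ χ' : Γ, g ∈ W χ'

/-- coordinates of the whole ring -/
def T_FNC : Prop := ∀ (k : Type) [Field k] [CharZero k] (m d : ℕ) (Γ : Type) [AddCommGroup Γ]
  (W : Γ → Submodule k (Pol k m)) (w : Fin m → Γ) (S : Fin m → Prop) (ϖ : Fin m → Γ →+ ℤ)
  (u v : Fin m → Pol k m) (c : Fin m → k) (z : Fin (d + 1) ⊕ Fin (d + 1) → Pol k m),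
  Ps W w S ϖ u v c → d + 1 + Nat.card {i // S i} = m → (∀ s, z s ∈ KS S u v) →
  (∀ s, ∃ χ, z s ∈ W χ) →
  (∀ i j, br (z (Sum.inl i)) (z (Sum.inr j)) = if i = j then 1 else 0) →
  (∀ i j, br (z (Sum.inl i)) (z (Sum.inl j)) = 0) →
  (∀ i j, br (z (Sum.inr i)) (z (Sum.inr j)) = 0) →
  (∀ g ∈ KS S u v, g ∈ Algebra.adjoin k (Set.range z)) →
  ∃ (Z : Fin m ⊕ Fin m → Pol k m) (ω : Fin m → Γ), (∀ i, Z (Sum.inl i) ∈ W (ω i)) ∧
    (∀ i, Z (Sum.inr i) ∈ W (-ω i)) ∧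
    (∀ i j, br (Z (Sum.inl i)) (Z (Sum.inr j)) = if i = j then 1 else 0) ∧
    (∀ i j, br (Z (Sum.inl i)) (Z (Sum.inl j)) = 0) ∧
    (∀ i j, br (Z (Sum.inr i)) (Z (Sum.inr j)) = 0) ∧
    (∀ f : Pol k m, f ∈ Algebra.adjoin k (Set.range Z))

/-! ### Actions -/

/-- the derivation of an action of the additive group -/
def T_GAD : Prop := ∀ (k : Type) [Field k] [CharZero k] (m : ℕ)
  (σ : Multiplicative k →* (Pol k m ≃ₐ[k] Pol k m)), AlgGa σ →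
  ∃ D : Derivation k (Pol k m) (Pol k m), (∀ g, ∃ n : ℕ, D^[n] g = 0) ∧
    (∀ φ : Pol k m ≃ₐ[k] Pol k m, (∀ s, σ s * φ = φ * σ s) → ∀ g, D (φ g) = φ (D g)) ∧
    ((∀ s, Symp (σ s)) → ∀ g h, D (br g h) = br (D g) h + br g (D h)) ∧
    ((∀ g, D g = 0) → ∀ s, σ s = 1)

/-- derivations of the bracket are Hamiltonian -/
def T_HAM : Prop := ∀ (k : Type) [Field k] [CharZero k] (m : ℕ) (D : Derivation k (Pol k m) (Pol k m)),
  (∀ g h, D (br g h) = br (D g) h + br g (D h)) → ∃ f : Pol k m, ∀ g, D g = br f g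

/-- the invariant Hamiltonian -/
def T_GAF : Prop := ∀ (k : Type) [Field k] [CharZero k] (m d : ℕ)
  (ρ : (Fin d → kˣ) →* (Pol k m ≃ₐ[k] Pol k m))
  (σ : Multiplicative k →* (Pol k m ≃ₐ[k] Pol k m)), AlgAct ρ → (∀ t, Symp (ρ t)) →
  AlgGa σ → (∀ s, Symp (σ s)) → (∃ s, σ s ≠ 1) → (∀ s t, σ s * ρ t = ρ t * σ s) →
  ∃ f : Pol k m, f ∈ Wt ρ 0 ∧ (¬ ∃ c : k, f = C c) ∧ ∀ g, ∃ n : ℕ, (br f)^[n] g = 0

/-- the additive group action of a monomial -/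
def T_CN1 : Prop := ∀ (k : Type) [Field k] [CharZero k] (m : ℕ) (c : Fin m → ℤ), c ≠ 0 →
  ∃ σ : Multiplicative k →* (Pol k m ≃ₐ[k] Pol k m), AlgGa σ ∧ (∀ s, Symp (σ s)) ∧
    (∃ s, σ s ≠ 1) ∧ ∀ (μ : Fin m → kˣ) (δ : Pol k m ≃ₐ[k] Pol k m),
      (∀ i, δ (X (Sum.inl i)) = C ((μ i : kˣ) : k) * X (Sum.inl i) ∧
        δ (X (Sum.inr i)) = C (((μ i)⁻¹ : kˣ) : k) * X (Sum.inr i)) →
      ∏ i, (μ i) ^ (c i) = 1 → ∀ s, σ s * δ = δ * σ s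

/-- diagonal actions commute with an additive group -/
def T_CNV : Prop := ∀ (k : Type) [Field k] [CharZero k] (m d : ℕ)
  (ρ : (Fin d → kˣ) →* (Pol k m ≃ₐ[k] Pol k m)) (φ : Pol k m ≃ₐ[k] Pol k m)
  (w : Fin m → Fin d → ℤ), d < m → Symp φ →
  (∀ (t : Fin d → kˣ) (i : Fin m),
    (φ * ρ t * φ⁻¹) (X (Sum.inl i)) = C ((chr (w i) t : kˣ) : k) * X (Sum.inl i) ∧
    (φ * ρ t * φ⁻¹) (X (Sum.inr i)) = C (((chr (w i) t)⁻¹ : kˣ) : k) * X (Sum.inr i)) →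
  ∃ σ : Multiplicative k →* (Pol k m ≃ₐ[k] Pol k m), AlgGa σ ∧ (∀ s, Symp (σ s)) ∧
    (∃ s, σ s ≠ 1) ∧ ∀ s t, σ s * ρ t = ρ t * σ s

end Pool.Agent.H15.TG
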